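import Pool.Agent.K1H25.JS.Orbit

namespace K1H25.JS

open Matrix

/-- `k`-th power of a word -/
def wpow (q : List Bool) : ℕ → List Bool
  | 0 => []
  | k + 1 => q ++ wpow q k

theorem ev_wpow (U V : M2) (q : List Bool) (k : ℕ) : ev U V (wpow q k) = ev U V q ^ k := by
  induction k with
  | zero => simp [wpow, ev]
  | succ k ih => rw [wpow, ev_append, ih, pow_succ']

theorem count_wpow (c : Bool) (q : List Bool) (k : ℕ) : (wpow q k).count c = k * q.count c := by
  induction k with
  | zero => simp [wpow]
  | succ k ih => rw [wpow, List.count_append, ih]; ring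

theorem length_wpow (q : List Bool) (k : ℕ) : (wpow q k).length = k * q.length := by
  induction k with
  | zero => simp [wpow]
  | succ k ih => rw [wpow, List.length_append, ih]; ring

/-- logarithmic growth of an orbit word -/
noncomputable def NN (p : List Bool) : ℝ := lam (ev A0 A1 p).trace

theorem NN_nonneg {p : List Bool} (h : 2 ≤ (ev A0 A1 p).trace) : 0 ≤ NN p := lam_nonneg h

theorem trace_ev_ge_two (w : List Bool) : 2 ≤ (ev A0 A1 w).trace := by
  obtain ⟨h1, _, _, h4⟩ := ev_nn w
  rw [tr2]; linarith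

/-- an orbit word of length at least two starts with `0` and ends with `1` -/
theorem orb_big {p q : List Bool} (h : Orb p q) :
    (2 ≤ p.length → Big (ev A0 A1 p)) ∧ (2 ≤ q.length → Big (ev A0 A1 q)) := by
  obtain ⟨_, h1, h2⟩ := orb_head_last h
  constructor
  · intro hp
    rcases h1 with h1 | ⟨m, h1⟩
    · rw [h1] at hp; simp at hp
    · rw [h1]; exact big_word m
  · intro hq
    rcases h2 with h2 | ⟨m, h2⟩
    · rw [h2] at hq; simp at hq
    · rw [h2]; exact big_word m

/-- star for orbit pairs -/
theorem orb_star (HL : S_LAM) {p q : List Bool} (h : Orb p q) (hp : 2 ≤ p.length)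
    (hq : 2 ≤ q.length) (a b : ℕ) (w : List Bool)
    (h0 : w.count false = a * p.count false + b * q.count false)
    (h1 : w.count true = a * p.count true + b * q.count true) :
    (ev A0 A1 w).trace ≤ 2 * Real.exp (a * NN p + b * NN q +
      (min a b : ℕ) * eps (ev A0 A1 p).trace (ev A0 A1 q).trace) := by
  obtain ⟨w', e1, e2, e3⟩ := orb_cone h a b w h0 h1
  obtain ⟨t1, t2⟩ := orb_tr h
  have hp' : (2 : ℝ) ≤ p.length := by exact_mod_cast hp
  have hq' : (2 : ℝ) ≤ q.length := by exact_mod_cast hq
  have := star HL w'.length _ _ (orb_good h) (by linarith) (by linarith) w' le_rfl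
  rw [e1, e2] at this
  exact le_trans e3 this

/-- (B1) inside the cone -/
theorem bound_in (HL : S_LAM) {p q : List Bool} (h : Orb p q) (hp : 2 ≤ p.length)
    (hq : 2 ≤ q.length) (a b : ℕ) (w : List Bool)
    (h0 : w.count false = a * p.count false + b * q.count false)
    (h1 : w.count true = a * p.count true + b * q.count true) :
    Real.log (nrm (ev A0 A1 w)) ≤ a * NN p + b * NN q +
      (min a b : ℕ) * eps (ev A0 A1 p).trace (ev A0 A1 q).trace +
      (Real.log 2 + NN p + NN q + eps (ev A0 A1 p).trace (ev A0 A1 q).trace) := by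
  have hbig : Big (ev A0 A1 (p ++ q)) := by
    obtain ⟨⟨m, hm⟩, _, _⟩ := orb_head_last h
    rw [hm]; exact big_word m
  have h2 := nrm_le_tr_big (w := w) hbig
  have h3 := orb_star HL h hp hq (a + 1) (b + 1) (w ++ (p ++ q))
    (by rw [List.count_append, List.count_append, h0]; ring)
    (by rw [List.count_append, List.count_append, h1]; ring)
  have h4 : nrm (ev A0 A1 w) ≤ _ := le_trans h2 h3
  have hpos : 0 < nrm (ev A0 A1 w) := by linarith [nrm_ge_two w]
  have h5 := Real.log_le_log hpos h4
  rw [Real.log_mul (by norm_num) (Real.exp_ne_zero _), Real.log_exp] at h5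
  refine le_trans h5 (le_of_eq ?_)
  have : min (a + 1) (b + 1) = min a b + 1 := by omega
  rw [this]
  push_cast
  ring

/-- (B2) beyond `p` -/
theorem bound_out_p (HL : S_LAM) {p q : List Bool} (h : Orb p q) (hp : 2 ≤ p.length)
    (hq : 2 ≤ q.length) (s r : ℕ) (w : List Bool)
    (h0 : w.count false + r * q.count false = s * p.count false)
    (h1 : w.count true + r * q.count true = s * p.count true) :
    Real.log (nrm (ev A0 A1 w)) ≤ s * NN p - r * NN q +
      (Real.log 2 + 2 * NN p + 2 * NN q + 2 * eps (ev A0 A1 p).trace (ev A0 A1 q).trace) := by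
  have hbig := (orb_big h).2 hq
  have hg := orb_good h
  have hc : Real.exp (r * NN q) ≤ (ev A0 A1 (wpow q r)).trace := by
    rw [ev_wpow]; exact le_tr_pow hg.detV hg.trV r
  have h2 := nrm_mul_le_tr (w := w) (z := wpow q r) hbig _ (Real.exp_pos _).le hc
  have h3 := orb_star HL h hp hq s 2 (w ++ (q ++ wpow q r ++ q))
    (by simp only [List.count_append, count_wpow]; rw [← h0]; ring)
    (by simp only [List.count_append, count_wpow]; rw [← h1]; ring)
  have h4 := le_trans h2 h3
  have hpos : 0 < nrm (ev A0 A1 w) := by linarith [nrm_ge_two w]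
  have h5 := Real.log_le_log (mul_pos hpos (Real.exp_pos _)) h4
  rw [Real.log_mul hpos.ne' (Real.exp_ne_zero _), Real.log_exp,
    Real.log_mul (two_ne_zero : (2:ℝ) ≠ 0) (Real.exp_ne_zero _), Real.log_exp] at h5
  have hmin : ((min s 2 : ℕ) : ℝ) ≤ 2 := by exact_mod_cast min_le_right _ _
  have h6 : ((min s 2 : ℕ) : ℝ) * eps (ev A0 A1 p).trace (ev A0 A1 q).trace ≤
      2 * eps (ev A0 A1 p).trace (ev A0 A1 q).trace :=
    mul_le_mul_of_nonneg_right hmin (eps_nonneg _ _)
  have h7 : 0 ≤ NN p := NN_nonneg hg.trU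
  push_cast at h5 h6
  linarith

/-- (B3) beyond `q` -/
theorem bound_out_q (HL : S_LAM) {p q : List Bool} (h : Orb p q) (hp : 2 ≤ p.length)
    (hq : 2 ≤ q.length) (s r : ℕ) (w : List Bool)
    (h0 : w.count false + r * p.count false = s * q.count false)
    (h1 : w.count true + r * p.count true = s * q.count true) :
    Real.log (nrm (ev A0 A1 w)) ≤ s * NN q - r * NN p +
      (Real.log 2 + 2 * NN p + 2 * NN q + 2 * eps (ev A0 A1 p).trace (ev A0 A1 q).trace) := by
  have hbig := (orb_big h).1 hp
  have hg := orb_good h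
  have hc : Real.exp (r * NN p) ≤ (ev A0 A1 (wpow p r)).trace := by
    rw [ev_wpow]; exact le_tr_pow hg.detU hg.trU r
  have h2 := nrm_mul_le_tr (w := w) (z := wpow p r) hbig _ (Real.exp_pos _).le hc
  have h3 := orb_star HL h hp hq 2 s (w ++ (p ++ wpow p r ++ p))
    (by simp only [List.count_append, count_wpow]; rw [← h0]; ring)
    (by simp only [List.count_append, count_wpow]; rw [← h1]; ring)
  have h4 := le_trans h2 h3
  have hpos : 0 < nrm (ev A0 A1 w) := by linarith [nrm_ge_two w]
  have h5 := Real.log_le_log (mul_pos hpos (Real.exp_pos _)) h4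
  rw [Real.log_mul hpos.ne' (Real.exp_ne_zero _), Real.log_exp,
    Real.log_mul (two_ne_zero : (2:ℝ) ≠ 0) (Real.exp_ne_zero _), Real.log_exp] at h5
  have hmin : ((min 2 s : ℕ) : ℝ) ≤ 2 := by exact_mod_cast min_le_left _ _
  have h6 : ((min 2 s : ℕ) : ℝ) * eps (ev A0 A1 p).trace (ev A0 A1 q).trace ≤
      2 * eps (ev A0 A1 p).trace (ev A0 A1 q).trace :=
    mul_le_mul_of_nonneg_right hmin (eps_nonneg _ _)
  have h7 : 0 ≤ NN q := NN_nonneg hg.trV
  push_cast at h5 h6
  linarith

/-- the coordinates of a word in the basis `(p, q)` -/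
def ca (q w : List Bool) : ℤ :=
  (w.count false : ℤ) * q.count true - (w.count true : ℤ) * q.count false
def cb (p w : List Bool) : ℤ :=
  (p.count false : ℤ) * w.count true - (p.count true : ℤ) * w.count false

theorem coords {p q : List Bool} (h : Orb p q) (w : List Bool) :
    (w.count false : ℤ) = ca q w * p.count false + cb p w * q.count false ∧
    (w.count true : ℤ) = ca q w * p.count true + cb p w * q.count true := by
  have hd : (p.count false : ℤ) * q.count true = p.count true * q.count false + 1 := by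
    exact_mod_cast orb_det h
  unfold ca cb
  constructor
  · linear_combination (-(w.count false : ℤ)) * hd
  · linear_combination (-(w.count true : ℤ)) * hd

/-- general upper bound, outside or inside the cone -/
theorem bound_all (HL : S_LAM) {p q : List Bool} (h : Orb p q) (hp : 2 ≤ p.length)
    (hq : 2 ≤ q.length) : ∃ C : ℝ, ∀ w : List Bool,
    Real.log (nrm (ev A0 A1 w)) ≤ (ca q w : ℝ) * NN p + (cb p w : ℝ) * NN q +
      (max 0 (min (ca q w) (cb p w)) : ℤ) * eps (ev A0 A1 p).trace (ev A0 A1 q).trace + C := by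
  refine ⟨Real.log 2 + 2 * NN p + 2 * NN q + 2 * eps (ev A0 A1 p).trace (ev A0 A1 q).trace, ?_⟩
  intro w
  obtain ⟨c0, c1⟩ := coords h w
  have hg := orb_good h
  have hA : 0 ≤ NN p := NN_nonneg hg.trU
  have hB : 0 ≤ NN q := NN_nonneg hg.trV
  have he := eps_nonneg (ev A0 A1 p).trace (ev A0 A1 q).trace
  rcases le_or_gt 0 (ca q w) with ha | ha
  · rcases le_or_gt 0 (cb p w) with hb | hb
    · obtain ⟨a, ha'⟩ := Int.eq_ofNat_of_zero_le ha
      obtain ⟨b, hb'⟩ := Int.eq_ofNat_of_zero_le hb
      rw [ha', hb'] at c0 c1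
      have := bound_in HL h hp hq a b w (by exact_mod_cast c0) (by exact_mod_cast c1)
      rw [ha', hb']
      have e : ((max 0 (min (a : ℤ) (b : ℤ)) : ℤ) : ℝ) = ((min a b : ℕ) : ℝ) := by
        have : max 0 (min (a : ℤ) (b : ℤ)) = ((min a b : ℕ) : ℤ) := by omega
        rw [this]; simp
      rw [e]
      push_cast at this ⊢
      linarith
    · obtain ⟨a, ha'⟩ := Int.eq_ofNat_of_zero_le ha
      obtain ⟨b, hb'⟩ := Int.eq_ofNat_of_zero_le (le_of_lt (neg_pos.2 hb))
      have hb'' : cb p w = -(b : ℤ) := by linarith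
      rw [ha', hb''] at c0 c1
      have := bound_out_p HL h hp hq a b w (by zify; linarith) (by zify; linarith)
      rw [ha', hb'']
      have e : max 0 (min (a : ℤ) (-(b : ℤ))) = 0 := by omega
      rw [e]
      push_cast at this ⊢
      linarith
  · have hb : 0 ≤ cb p w := by
      by_contra hb
      push Not at hb
      have h1 : (w.count false : ℤ) ≤ 0 := by
        rw [c0]; nlinarith [Int.natCast_nonneg (p.count false), Int.natCast_nonneg (q.count false)]
      have h2 : (w.count true : ℤ) ≤ 0 := by
        rw [c1]; nlinarith [Int.natCast_nonneg (p.count true), Int.natCast_nonneg (q.count true)]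
      have h3 : w.count false = 0 := by omega
      have h4 : w.count true = 0 := by omega
      unfold ca at ha
      rw [h3, h4] at ha
      simp at ha
    obtain ⟨a, ha'⟩ := Int.eq_ofNat_of_zero_le (le_of_lt (neg_pos.2 ha))
    obtain ⟨b, hb'⟩ := Int.eq_ofNat_of_zero_le hb
    have ha'' : ca q w = -(a : ℤ) := by linarith
    rw [ha'', hb'] at c0 c1
    have := bound_out_q HL h hp hq b a w (by zify; linarith) (by zify; linarith)
    rw [ha'', hb']
    have e : max 0 (min (-(a : ℤ)) (b : ℤ)) = 0 := by omega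
    rw [e]
    push_cast at this ⊢
    linarith

/-- lower bound from periodic words -/
theorem per_lower (HG : S_GROW) (t : ℝ) (w : List Bool) :
    t * (w.count true : ℝ) + NN w ≤ Lam t * (w.length : ℝ) := by
  obtain ⟨_, ⟨C, hC⟩, _⟩ := HG t
  have key : ∀ k : ℕ, (k : ℝ) * (t * (w.count true : ℝ) + NN w - Lam t * (w.length : ℝ)) ≤ C := by
    intro k
    have h1 := hC (wpow w k)
    unfold wt at h1
    rw [count_wpow, length_wpow] at h1
    have hd : (ev A0 A1 w).det = 1 := det_ev detA0 detA1 w
    have h2 := le_tr_pow hd (trace_ev_ge_two w) k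
    rw [← ev_wpow] at h2
    have h3 := le_trans h2 (tr_le_nrm (wpow w k))
    have h4 := Real.log_le_log (Real.exp_pos _) h3
    rw [Real.log_exp] at h4
    unfold NN
    push_cast at h1
    linarith
  by_contra hcon
  push Not at hcon
  obtain ⟨k, hk⟩ := exists_nat_gt (C / (t * (w.count true : ℝ) + NN w - Lam t * (w.length : ℝ)))
  have h5 : 0 < t * (w.count true : ℝ) + NN w - Lam t * (w.length : ℝ) := by linarith
  rw [div_lt_iff₀ h5] at hk
  linarith [key k]

end K1H25.JS
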