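import Pool.Agent.K1H25.JS.Good

namespace K1H25.JS

open Matrix

/-! ## factors and substitutions -/

theorem inL : ∀ n : ℕ, ∀ w : List Bool, w.length ≤ n → (∀ t, w ≠ true :: t) →
    (¬ ∃ p s, w = p ++ true :: true :: s) → ∃ w', w = subL w' := by
  intro n
  induction n with
  | zero =>
    intro w hw _ _
    have hw' : w = [] := List.length_eq_zero_iff.1 (Nat.le_zero.1 hw)
    exact ⟨[], hw'⟩
  | succ n ih =>
    intro w hw h1 h2
    match w, hw, h1, h2 with
    | [], _, _, _ => exact ⟨[], rfl⟩
    | true :: t, _, h1, _ => exact absurd rfl (h1 t)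
    | false :: [], _, _, _ => exact ⟨[false], rfl⟩
    | false :: false :: t, hw, _, h2 =>
      obtain ⟨w', hw'⟩ := ih (false :: t) (by simp at hw ⊢; omega) (by intro s hs; simp at hs)
        (by
          rintro ⟨p, s, hps⟩
          exact h2 ⟨false :: p, s, by rw [hps]; rfl⟩)
      exact ⟨false :: w', by rw [subL, ← hw']⟩
    | false :: true :: t, hw, _, h2 =>
      obtain ⟨w', hw'⟩ := ih t (by simp at hw; omega)
        (by
          intro s hs
          exact h2 ⟨[false], s, by rw [hs]; rfl⟩)
        (by
          rintro ⟨p, s, hps⟩
          exact h2 ⟨false :: true :: p, s, by rw [hps]; rfl⟩)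
      exact ⟨true :: w', by rw [subL, ← hw']⟩

theorem inR : ∀ n : ℕ, ∀ w : List Bool, w.length ≤ n → (∀ t, w ≠ t ++ [false]) →
    (¬ ∃ p s, w = p ++ false :: false :: s) → ∃ w', w = subR w' := by
  intro n
  induction n with
  | zero =>
    intro w hw _ _
    have hw' : w = [] := List.length_eq_zero_iff.1 (Nat.le_zero.1 hw)
    exact ⟨[], hw'⟩
  | succ n ih =>
    intro w hw h1 h2
    match w, hw, h1, h2 with
    | [], _, _, _ => exact ⟨[], rfl⟩
    | false :: [], _, h1, _ => exact absurd rfl (h1 [])
    | false :: false :: t, _, _, h2 => exact absurd ⟨[], t, rfl⟩ h2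
    | true :: t, hw, h1, h2 =>
      obtain ⟨w', hw'⟩ := ih t (by simp at hw ⊢; omega)
        (by
          intro s hs
          exact h1 (true :: s) (by rw [hs]; rfl))
        (by
          rintro ⟨p, s, hps⟩
          exact h2 ⟨true :: p, s, by rw [hps]; rfl⟩)
      exact ⟨true :: w', by rw [subR, ← hw']⟩
    | false :: true :: t, hw, h1, h2 =>
      obtain ⟨w', hw'⟩ := ih t (by simp at hw; omega)
        (by
          intro s hs
          exact h1 (false :: true :: s) (by rw [hs]; rfl))
        (by
          rintro ⟨p, s, hps⟩
          exact h2 ⟨false :: true :: p, s, by rw [hps]; rfl⟩)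
      exact ⟨false :: w', by rw [subR, ← hw']⟩

/-- rotation to a word starting with `0` and ending with `1` -/
theorem rotate01 (w : List Bool) (h0 : false ∈ w) (h1 : true ∈ w) :
    ∃ a b m, w = a ++ b ∧ b ++ a = false :: (m ++ [true]) := by
  obtain ⟨p, q, hpq, hp⟩ := List.eq_append_cons_of_mem h0
  by_cases hpe : p = []
  · subst hpe
    have h1q : true ∈ q := by
      rw [hpq] at h1
      simpa using h1
    -- last occurrence of `true` in `q`
    have : ∃ s t, q = s ++ true :: t ∧ true ∉ t := by
      obtain ⟨s', t', hst, hs'⟩ := List.eq_append_cons_of_mem (List.mem_reverse.2 h1q)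
      refine ⟨t'.reverse, s'.reverse, ?_, ?_⟩
      · have := congrArg List.reverse hst
        simpa using this
      · simpa using hs'
    obtain ⟨s, t, hst, ht⟩ := this
    have ht' : t = List.replicate t.length false := by
      rw [List.eq_replicate_iff]
      refine ⟨rfl, fun b hb => ?_⟩
      cases b
      · rfl
      · exact absurd hb ht
    refine ⟨false :: s ++ [true], t, ?_⟩
    cases t with
    | nil => exact ⟨s, by rw [hpq, hst]; simp, by simp⟩
    | cons c t =>
      have hc : c = false := by
        cases c
        · rfl
        · exact absurd (List.mem_cons_self) ht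
      subst hc
      exact ⟨t ++ false :: s, by rw [hpq, hst]; simp, by simp⟩
  · -- `p` is a nonempty block of `true`
    have hp' : ∃ p', p = p' ++ [true] := by
      obtain ⟨p', c, hc⟩ : ∃ p' c, p = p' ++ [c] := ⟨p.dropLast, p.getLast hpe, (List.dropLast_append_getLast hpe).symm⟩
      cases c
      · exact absurd (by rw [hc]; simp) hp
      · exact ⟨p', hc⟩
    obtain ⟨p', hp'⟩ := hp'
    refine ⟨p, false :: q, q ++ p', hpq, ?_⟩
    rw [hp']; simp

theorem tr_rot (U V : M2) (a b : List Bool) : (ev U V (a ++ b)).trace = (ev U V (b ++ a)).trace := by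
  rw [ev_append, ev_append, Matrix.trace_mul_comm]

theorem count_rot (c : Bool) (a b : List Bool) : (a ++ b).count c = (b ++ a).count c := by
  rw [List.count_append, List.count_append, add_comm]

/-- exchange for words containing both `00` and `11` -/
theorem exch' {U V : M2} (h : Good U V) (w : List Bool)
    (h0 : ∃ p s, w = p ++ false :: false :: s) (h1 : ∃ p s, w = p ++ true :: true :: s) :
    ∃ w', w'.count false = w.count false ∧ w'.count true = w.count true ∧
      (ev U V w).trace < (ev U V w').trace := by
  obtain ⟨p, s, hps⟩ := h0
  obtain ⟨p', s', hps'⟩ := h1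
  -- the word is cyclically `00 r 11 s`
  have key : ∃ r t, (ev U V w).trace = (ev U V (false :: false :: r ++ true :: true :: t)).trace ∧
      w.count false = (false :: false :: r ++ true :: true :: t).count false ∧
      w.count true = (false :: false :: r ++ true :: true :: t).count true := by
    have hlen : p ++ false :: false :: s = p' ++ true :: true :: s' := by rw [← hps, ← hps']
    rcases List.append_eq_append_iff.1 hlen with ⟨a, ha1, ha2⟩ | ⟨a, ha1, ha2⟩
    · -- p' = p ++ a, 0 0 s = a ++ 1 1 s'
      match a, ha1, ha2 with
      | [], _, ha2 => simp at ha2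
      | [c], _, ha2 => simp at ha2
      | c :: d :: a, ha1, ha2 =>
        have hc : c = false ∧ d = false ∧ s = a ++ true :: true :: s' := by
          simpa [eq_comm] using ha2
        obtain ⟨rfl, rfl, hs⟩ := hc
        refine ⟨a, s' ++ p, ?_, ?_, ?_⟩
        · rw [hps, tr_rot]; congr 2; rw [hs]; simp
        · rw [hps, count_rot]; congr 1; rw [hs]; simp
        · rw [hps, count_rot]; congr 1; rw [hs]; simp
    · -- p = p' ++ a, 1 1 s' = a ++ 0 0 s
      match a, ha1, ha2 with
      | [], _, ha2 => simp at ha2
      | [c], _, ha2 => simp at ha2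
      | c :: d :: a, ha1, ha2 =>
        have hc : c = true ∧ d = true ∧ s' = a ++ false :: false :: s := by
          simpa [eq_comm] using ha2
        obtain ⟨rfl, rfl, hs⟩ := hc
        -- w = p' 1 1 a 0 0 s ; rotate to 0 0 (s p') 1 1 a
        have hw : w = (p' ++ true :: true :: a) ++ (false :: false :: s) := by
          rw [hps', hs]; simp
        refine ⟨s ++ p', a, ?_, ?_, ?_⟩
        · rw [hw, tr_rot]; congr 2; simp
        · rw [hw, count_rot]; congr 1; simp
        · rw [hw, count_rot]; congr 1; simp
  obtain ⟨r, t, e1, e2, e3⟩ := key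
  refine ⟨false :: (true :: r.reverse ++ [false]) ++ true :: t, ?_, ?_, ?_⟩
  · rw [e2]
    simp only [List.count_append, List.cons_append, cc_ff, cc_tf, List.count_reverse, List.count_nil]
    omega
  · rw [e3]
    simp only [List.count_append, List.cons_append, cc_tt, cc_ft, List.count_reverse, List.count_nil]
    omega
  · rw [e1]; exact exchange h r t

theorem len_count (w : List Bool) : w.length = w.count false + w.count true := by
  induction w with
  | nil => simp
  | cons c w ih => cases c <;> simp only [List.length_cons, cc_ff, cc_tt, cc_ft, cc_tf, ih] <;> omega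

/-- a word with both letters is dominated by a word in the image of one of the substitutions -/
theorem dom_sub {U V : M2} (h : Good U V) (w : List Bool) (h0 : 0 < w.count false)
    (h1 : 0 < w.count true) :
    ∃ w', ((subL w').count false = w.count false ∧ (subL w').count true = w.count true ∧
        (ev U V w).trace ≤ (ev U V (subL w')).trace) ∨
      ((subR w').count false = w.count false ∧ (subR w').count true = w.count true ∧
        (ev U V w).trace ≤ (ev U V (subR w')).trace) := by
  set S : Set (List Bool) := {v | v.count false = w.count false ∧ v.count true = w.count true} with hS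
  have hfin : S.Finite := by
    refine (List.finite_length_eq Bool w.length).subset ?_
    intro v hv
    show v.length = w.length
    rw [len_count, len_count w, hv.1, hv.2]
  obtain ⟨v, hv, hmax⟩ := Set.exists_max_image S (fun v => (ev U V v).trace) hfin ⟨w, rfl, rfl⟩
  have hw_le : (ev U V w).trace ≤ (ev U V v).trace := hmax w ⟨rfl, rfl⟩
  have hv0 : false ∈ v := by
    rw [← List.count_pos_iff]; rw [hv.1]; exact h0
  have hv1 : true ∈ v := by
    rw [← List.count_pos_iff]; rw [hv.2]; exact h1
  obtain ⟨a, b, m, hab, hba⟩ := rotate01 v hv0 hv1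
  set u := b ++ a with hu
  have hu0 : u.count false = w.count false := by rw [hu, count_rot, ← hab]; exact hv.1
  have hu1 : u.count true = w.count true := by rw [hu, count_rot, ← hab]; exact hv.2
  have hut : (ev U V u).trace = (ev U V v).trace := by rw [hu, tr_rot, ← hab]
  by_cases c0 : ∃ p s, u = p ++ false :: false :: s
  · by_cases c1 : ∃ p s, u = p ++ true :: true :: s
    · exfalso
      obtain ⟨w', e1, e2, e3⟩ := exch' h u c0 c1
      have : (ev U V w').trace ≤ (ev U V v).trace := hmax w' ⟨by rw [e1, hu0], by rw [e2, hu1]⟩
      rw [← hut] at this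
      exact absurd e3 (not_lt.2 this)
    · obtain ⟨w', hw'⟩ := inL u.length u le_rfl (by intro t ht; rw [hba] at ht; simp at ht) c1
      refine ⟨w', Or.inl ⟨?_, ?_, ?_⟩⟩
      · rw [← hw', hu0]
      · rw [← hw', hu1]
      · rw [← hw', hut]; exact hw_le
  · obtain ⟨w', hw'⟩ := inR u.length u le_rfl (by
      intro t ht
      rw [hba, ← List.cons_append] at ht
      have := List.append_inj' ht rfl
      simp at this) c0
    refine ⟨w', Or.inr ⟨?_, ?_, ?_⟩⟩
    · rw [← hw', hu0]
    · rw [← hw', hu1]
    · rw [← hw', hut]; exact hw_le

theorem all_false (w : List Bool) (h : w.count true = 0) : w = List.replicate (w.count false) false := by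
  induction w with
  | nil => simp
  | cons c w ih =>
    cases c
    · rw [cc_ft] at h
      rw [cc_ff, List.replicate_succ, ← ih h]
    · rw [cc_tt] at h; omega

theorem all_true (w : List Bool) (h : w.count false = 0) : w = List.replicate (w.count true) true := by
  induction w with
  | nil => simp
  | cons c w ih =>
    cases c
    · rw [cc_ff] at h; omega
    · rw [cc_tf] at h
      rw [cc_tt, List.replicate_succ, ← ih h]

/-- cone lemma, left step -/
theorem cone_left {U V : M2} (h : Good U V) (a b : ℕ) (w : List Bool)
    (h0 : w.count false = a + b) (h1 : w.count true = b) :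
    ∃ w', w'.count false = a ∧ w'.count true = b ∧
      (ev U V w).trace ≤ (ev U (U * V) w').trace := by
  rcases Nat.eq_zero_or_pos b with hb | hb
  · subst hb
    have hw := all_false w h1
    refine ⟨List.replicate a false, by simp, by simp [List.count_replicate], ?_⟩
    rw [hw, h0, ev_replicate_false, ev_replicate_false]
    simp
  · obtain ⟨w', hw' | hw'⟩ := dom_sub h w (by omega) (by omega)
    · obtain ⟨e1, e2, e3⟩ := hw'
      rw [count_subL_f] at e1
      rw [count_subL_t] at e2
      exact ⟨w', by omega, by omega, by rwa [ev_subL] at e3⟩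
    · obtain ⟨e1, e2, e3⟩ := hw'
      rw [count_subR_f] at e1
      rw [count_subR_t] at e2
      have ha : a = 0 := by omega
      have hz : w'.count true = 0 := by omega
      subst ha
      refine ⟨List.replicate b true, by simp [List.count_replicate], by simp, ?_⟩
      rw [ev_subR, all_false w' hz, ev_replicate_false] at e3
      rw [ev_replicate_true]
      have : w'.count false = b := by omega
      rwa [this] at e3

/-- cone lemma, right step -/
theorem cone_right {U V : M2} (h : Good U V) (a b : ℕ) (w : List Bool)
    (h0 : w.count false = a) (h1 : w.count true = a + b) :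
    ∃ w', w'.count false = a ∧ w'.count true = b ∧
      (ev U V w).trace ≤ (ev (U * V) V w').trace := by
  rcases Nat.eq_zero_or_pos a with ha | ha
  · subst ha
    have hw := all_true w h0
    refine ⟨List.replicate b true, by simp [List.count_replicate], by simp, ?_⟩
    rw [hw, h1, ev_replicate_true, ev_replicate_true]
    simp
  · obtain ⟨w', hw' | hw'⟩ := dom_sub h w (by omega) (by omega)
    · obtain ⟨e1, e2, e3⟩ := hw'
      rw [count_subL_f] at e1
      rw [count_subL_t] at e2
      have hb : b = 0 := by omega
      have hz : w'.count false = 0 := by omega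
      subst hb
      refine ⟨List.replicate a false, by simp, by simp [List.count_replicate], ?_⟩
      rw [ev_subL, all_true w' hz, ev_replicate_true] at e3
      rw [ev_replicate_false]
      have : w'.count true = a := by omega
      rwa [this] at e3
    · obtain ⟨e1, e2, e3⟩ := hw'
      rw [count_subR_f] at e1
      rw [count_subR_t] at e2
      exact ⟨w', by omega, by omega, by rwa [ev_subR] at e3⟩

end K1H25.JS
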