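import Pool.Agent.K1H25.JS.Uniq

namespace K1H25.JS

open Matrix Filter Topology

/-- the affine function of the slope interpolating `N` at `p` and `q` -/
noncomputable def ell (p q : List Bool) (σ : ℝ) : ℝ :=
  (q.count true - q.length * σ) * NN p + (p.length * σ - p.count true) * NN q

/-- the candidate ratios at the parameter `t` -/
def RR (t σ : ℝ) : Prop := (0 ≤ σ ∧ σ ≤ 1) ∧ ∀ p q : List Bool, Orb p q → 2 ≤ p.length →
  2 ≤ q.length → (σ < slope p ∨ slope q < σ) → Lam t - t * σ ≤ ell p q σ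

theorem ell_tendsto (p q : List Bool) {u : ℕ → ℝ} {σ : ℝ} (h : Tendsto u atTop (𝓝 σ)) :
    Tendsto (fun n => ell p q (u n)) atTop (𝓝 (ell p q σ)) := by
  unfold ell
  exact ((tendsto_const_nhds.sub (h.const_mul _)).mul_const _).add
    (((h.const_mul _).sub tendsto_const_nhds).mul_const _)

/-- outside the cone the growth is at most `ell` -/
theorem gr_out (HL : S_LAM) {p q : List Bool} (h : Orb p q) (hp : 2 ≤ p.length)
    (hq : 2 ≤ q.length) : ∃ C : ℝ, ∀ (x : ℕ → Bool) (n : ℕ), 1 ≤ n →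
    (freq x n < slope p ∨ slope q < freq x n) → gr x n ≤ ell p q (freq x n) + C / n := by
  obtain ⟨C, hC⟩ := bound_all HL h hp hq
  refine ⟨C, fun x n hn hs => ?_⟩
  have hp' : (0 : ℝ) < p.length := by exact_mod_cast (by omega : 0 < p.length)
  have hq' : (0 : ℝ) < q.length := by exact_mod_cast (by omega : 0 < q.length)
  have hpos : (0 : ℝ) < (n : ℝ) := by exact_mod_cast hn
  have h2 := hC (pre x n)
  have ha := ca_pre q x hn
  have hb := cb_pre p x hn
  have hmin : max 0 (min (ca q (pre x n)) (cb p (pre x n))) = 0 := by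
    apply max_eq_left
    rcases hs with hs | hs
    · refine le_trans (min_le_right _ _) ?_
      have : (cb p (pre x n) : ℝ) / n < 0 := by
        rw [hb]
        unfold slope at hs
        rw [lt_div_iff₀ hp'] at hs
        linarith
      have h3 : (cb p (pre x n) : ℝ) < 0 := by
        by_contra hcon
        push Not at hcon
        exact absurd this (not_lt.2 (div_nonneg hcon hpos.le))
      exact_mod_cast h3.le
    · refine le_trans (min_le_left _ _) ?_
      have : (ca q (pre x n) : ℝ) / n < 0 := by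
        rw [ha]
        unfold slope at hs
        rw [div_lt_iff₀ hq'] at hs
        linarith
      have h3 : (ca q (pre x n) : ℝ) < 0 := by
        by_contra hcon
        push Not at hcon
        exact absurd this (not_lt.2 (div_nonneg hcon hpos.le))
      exact_mod_cast h3.le
  rw [hmin, Int.cast_zero, zero_mul, add_zero] at h2
  unfold ell gr
  rw [← ha, ← hb, div_le_iff₀ hpos]
  have h4 : ((ca q (pre x n) : ℝ) / n * NN p + (cb p (pre x n) : ℝ) / n * NN q + C / n) * n =
      (ca q (pre x n) : ℝ) * NN p + (cb p (pre x n) : ℝ) * NN q + C := by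
    field_simp
  rw [h4]
  exact h2

/-- (i) limit frequencies of weakly extremal words are candidates -/
theorem RR_of_cluster (HG : S_GROW) (HW : S_WE) (HL : S_LAM) {t σ : ℝ} {x : ℕ → Bool}
    (hx : WeaklyExtremal (Real.exp t) x) {φ : ℕ → ℕ} (hφ : Tendsto φ atTop atTop)
    (hσ : Tendsto (fun k => freq x (φ k)) atTop (𝓝 σ)) : RR t σ := by
  refine ⟨⟨ge_of_tendsto' hσ (fun k => (freq_mem x _).1),
    le_of_tendsto' hσ (fun k => (freq_mem x _).2)⟩, ?_⟩
  intro p q ho hp hq hs
  obtain ⟨C, hC⟩ := gr_out HL ho hp hq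
  have h1 := gr_tendsto HG HW hx hφ hσ
  have h2 : Tendsto (fun k => ell p q (freq x (φ k)) + C / (φ k : ℝ)) atTop
      (𝓝 (ell p q σ + 0)) := (ell_tendsto p q hσ).add (const_div_tendsto hφ C)
  rw [add_zero] at h2
  refine le_of_tendsto_of_tendsto h1 h2 ?_
  have hev : ∀ᶠ k in atTop, (freq x (φ k) < slope p ∨ slope q < freq x (φ k)) := by
    rcases hs with hs | hs
    · filter_upwards [hσ.eventually_lt_const hs] with k hk using Or.inl hk
    · filter_upwards [hσ.eventually_const_lt hs] with k hk using Or.inr hk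
  filter_upwards [hev, hφ.eventually_ge_atTop 1] with k hk hk1
  exact hC x (φ k) hk1 hk

theorem Lam_lip (HG : S_GROW) (s t : ℝ) : Lam s ≤ Lam t + |s - t| := by
  obtain ⟨_, _, ⟨C, x, hx⟩⟩ := HG s
  obtain ⟨_, ⟨D, hD⟩, _⟩ := HG t
  have key : ∀ n : ℕ, (n : ℝ) * (Lam s - Lam t - |s - t|) ≤ C + D := by
    intro n
    have h1 := hx n
    have h2 := hD (pre x n)
    unfold wt at h1 h2
    rw [length_pre] at h2
    have h3 : ((pre x n).count true : ℝ) ≤ n := by
      have : (pre x n).count true ≤ (pre x n).length := List.count_le_length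
      rw [length_pre] at this
      exact_mod_cast this
    have h4 : (s - t) * ((pre x n).count true : ℝ) ≤ |s - t| * n := by
      have h5 : (s - t) * ((pre x n).count true : ℝ) ≤ |s - t| * ((pre x n).count true : ℝ) :=
        mul_le_mul_of_nonneg_right (le_abs_self _) (Nat.cast_nonneg _)
      exact le_trans h5 (mul_le_mul_of_nonneg_left h3 (abs_nonneg _))
    nlinarith
  by_contra hcon
  push Not at hcon
  obtain ⟨k, hk⟩ := exists_nat_gt ((C + D) / (Lam s - Lam t - |s - t|))
  have h5 : 0 < Lam s - Lam t - |s - t| := by linarith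
  rw [div_lt_iff₀ h5] at hk
  linarith [key k]

theorem Lam_cont (HG : S_GROW) : Continuous Lam := by
  have : LipschitzWith 1 Lam := by
    apply LipschitzWith.of_dist_le_mul
    intro s t
    rw [Real.dist_eq, Real.dist_eq, abs_sub_le_iff]
    have h1 := Lam_lip HG s t
    have h2 := Lam_lip HG t s
    rw [abs_sub_comm t s] at h2
    simp only [NNReal.coe_one, one_mul]
    constructor <;> linarith
  exact this.continuous

/-- (ii) there is at most one candidate -/
theorem RR_unique (HG : S_GROW) (HL : S_LAM) (HP : S_PATH) {t σ₁ σ₂ : ℝ} (h1 : RR t σ₁)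
    (h2 : RR t σ₂) : σ₁ = σ₂ := by
  by_contra hne
  wlog hlt : σ₁ < σ₂ generalizing σ₁ σ₂ with H
  · exact H h2 h1 (Ne.symm hne) (lt_of_le_of_ne (not_lt.1 hlt) (Ne.symm hne))
  obtain ⟨γ, hγ, g1, g2⟩ := exists_irrational_btwn hlt
  have hγ0 : 0 < γ := lt_of_le_of_lt h1.1.1 g1
  have hγ1 : γ < 1 := lt_of_lt_of_le g2 h2.1.2
  obtain ⟨n, hn⟩ := exists_nat_gt (max (1 / (γ - σ₁)) (1 / (σ₂ - γ)))
  obtain ⟨p, q, ho, hp, hq, s1, s2⟩ := HP γ hγ hγ0 hγ1 (max n 2)
  have hp2 : 2 ≤ p.length := le_trans (le_max_right _ _) hp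
  have hq2 : 2 ≤ q.length := le_trans (le_max_right _ _) hq
  have hpn : (n : ℝ) ≤ p.length := by exact_mod_cast le_trans (le_max_left _ _) hp
  have hqn : (n : ℝ) ≤ q.length := by exact_mod_cast le_trans (le_max_left _ _) hq
  have hp' : (0 : ℝ) < p.length := by exact_mod_cast (by omega : 0 < p.length)
  have hq' : (0 : ℝ) < q.length := by exact_mod_cast (by omega : 0 < q.length)
  have hp1 : (1 : ℝ) ≤ p.length := by exact_mod_cast (by omega : 1 ≤ p.length)
  have hq1 : (1 : ℝ) ≤ q.length := by exact_mod_cast (by omega : 1 ≤ q.length)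
  have hd := orb_det_len ho
  have hn1 : 1 / (γ - σ₁) < n := lt_of_le_of_lt (le_max_left _ _) hn
  have hn2 : 1 / (σ₂ - γ) < n := lt_of_le_of_lt (le_max_right _ _) hn
  rw [div_lt_iff₀ (by linarith)] at hn1 hn2
  -- slopes
  have hsp : slope p * p.length = p.count true := by unfold slope; field_simp
  have hsq : slope q * q.length = q.count true := by unfold slope; field_simp
  have hgap : (slope q - slope p) * (p.length * q.length) = 1 := by
    rw [← hsp, ← hsq] at hd
    linear_combination hd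
  have hgap0 : 0 < slope q - slope p := by linarith
  have hgp : (slope q - slope p) * p.length ≤ 1 := by
    have : (slope q - slope p) * p.length * 1 ≤ (slope q - slope p) * p.length * q.length :=
      mul_le_mul_of_nonneg_left hq1 (by positivity)
    nlinarith
  have k1 : σ₁ < slope p := by
    by_contra hcon
    push Not at hcon
    have : (γ - σ₁) * p.length ≤ (slope q - slope p) * p.length := by
      apply mul_le_mul_of_nonneg_right _ hp'.le
      linarith
    nlinarith
  have k2 : slope q < σ₂ := by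
    by_contra hcon
    push Not at hcon
    have : (σ₂ - γ) * p.length ≤ (slope q - slope p) * p.length := by
      apply mul_le_mul_of_nonneg_right _ hp'.le
      linarith
    nlinarith
  have l1 := h1.2 p q ho hp2 hq2 (Or.inl k1)
  have l2 := h2.2 p q ho hp2 hq2 (Or.inr k2)
  -- the mediant
  obtain ⟨t1, t2⟩ := orb_tr ho
  have hg := orb_good ho
  have hp2' : (2 : ℝ) ≤ p.length := by exact_mod_cast hp2
  have hq2' : (2 : ℝ) ≤ q.length := by exact_mod_cast hq2
  have hN : NN p + NN q < NN (p ++ q) := by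
    unfold NN
    rw [ev_append]
    exact (HL _ _ _ (by linarith) (by linarith) hg.fr hg.lar).1
  have hL := per_lower HG t (p ++ q)
  rw [List.count_append, List.length_append] at hL
  push_cast at hL
  -- `f σ = Λ - tσ - ell σ` is affine
  set P1 : ℝ := (p.count true : ℝ)
  set Q1 : ℝ := (q.count true : ℝ)
  set P : ℝ := (p.length : ℝ)
  set Q : ℝ := (q.length : ℝ)
  unfold ell at l1 l2
  -- weights of the mediant
  have w1 : 0 < σ₂ * (P + Q) - (P1 + Q1) := by
    have : slope p < σ₂ := by linarith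
    nlinarith
  have w2 : 0 < (P1 + Q1) - σ₁ * (P + Q) := by
    have : σ₁ < slope q := by linarith
    nlinarith
  have m1 := mul_le_mul_of_nonneg_left l1 w1.le
  have m2 := mul_le_mul_of_nonneg_left l2 w2.le
  have m3 : 0 < σ₂ - σ₁ := by linarith
  have key : (σ₂ - σ₁) * (Lam t * (P + Q) - t * (P1 + Q1)) ≤ (σ₂ - σ₁) * (NN p + NN q) := by
    have e1 : (σ₂ - σ₁) * (Lam t * (P + Q) - t * (P1 + Q1)) =
        (σ₂ * (P + Q) - (P1 + Q1)) * (Lam t - t * σ₁) +
        ((P1 + Q1) - σ₁ * (P + Q)) * (Lam t - t * σ₂) := by ring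
    have e2 : (σ₂ - σ₁) * (NN p + NN q) =
        (σ₂ * (P + Q) - (P1 + Q1)) * ((Q1 - Q * σ₁) * NN p + (P * σ₁ - P1) * NN q) +
        ((P1 + Q1) - σ₁ * (P + Q)) * ((Q1 - Q * σ₂) * NN p + (P * σ₂ - P1) * NN q) := by
      linear_combination (-(σ₂ - σ₁) * (NN p + NN q)) * hd
    rw [e1, e2]
    linarith
  have := le_of_mul_le_mul_left key m3
  linarith

/-- (iii) weakly extremal words exist -/
theorem we_exists (HG : S_GROW) (HW : S_WE) (t : ℝ) : ∃ x, WeaklyExtremal (Real.exp t) x := by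
  obtain ⟨_, ⟨D, hD⟩, ⟨C, x, hx⟩⟩ := HG t
  refine ⟨x, (HW (fun t => (HG t).1) t x).2 ?_⟩
  have h1 : Tendsto (fun n : ℕ => Lam t - C / (n : ℝ)) atTop (𝓝 (Lam t - 0)) :=
    tendsto_const_nhds.sub (tendsto_const_div_atTop_nhds_zero_nat C)
  have h2 : Tendsto (fun n : ℕ => Lam t + D / (n : ℝ)) atTop (𝓝 (Lam t + 0)) :=
    tendsto_const_nhds.add (tendsto_const_div_atTop_nhds_zero_nat D)
  rw [sub_zero] at h1
  rw [add_zero] at h2
  refine tendsto_of_tendsto_of_tendsto_of_le_of_le' h1 h2 ?_ ?_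
  · filter_upwards [eventually_ge_atTop 1] with n hn
    have hpos : (0 : ℝ) < (n : ℝ) := by exact_mod_cast hn
    rw [le_div_iff₀ hpos, sub_mul, div_mul_cancel₀ _ hpos.ne']
    exact hx n
  · filter_upwards [eventually_ge_atTop 1] with n hn
    have hpos : (0 : ℝ) < (n : ℝ) := by exact_mod_cast hn
    rw [div_le_iff₀ hpos, add_mul, div_mul_cancel₀ _ hpos.ne']
    have := hD (pre x n)
    rwa [length_pre] at this

theorem RR_exists (HG : S_GROW) (HW : S_WE) (HL : S_LAM) (t : ℝ) : ∃ σ, RR t σ := by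
  obtain ⟨x, hx⟩ := we_exists HG HW t
  obtain ⟨σ, _, φ, hφ, hlim⟩ := (isCompact_Icc (a := (0:ℝ)) (b := 1)).tendsto_subseq
    (fun n => ⟨(freq_mem x n).1, (freq_mem x n).2⟩ : ∀ n, freq x n ∈ Set.Icc (0:ℝ) 1)
  exact ⟨σ, RR_of_cluster HG HW HL hx hφ.tendsto_atTop hlim⟩

/-- every weakly extremal word at `t` has the frequency `σ` if `RR t σ` -/
theorem freq_tendsto (HG : S_GROW) (HW : S_WE) (HL : S_LAM) (HP : S_PATH) {t σ : ℝ}
    (hσ : RR t σ) {x : ℕ → Bool} (hx : WeaklyExtremal (Real.exp t) x) :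
    Tendsto (freq x) atTop (𝓝 σ) := by
  apply tendsto_of_subseq_tendsto
  intro ns hns
  obtain ⟨σ', _, φ, hφ, hlim⟩ := (isCompact_Icc (a := (0:ℝ)) (b := 1)).tendsto_subseq
    (fun n => ⟨(freq_mem x (ns n)).1, (freq_mem x (ns n)).2⟩ :
      ∀ n, (fun n => freq x (ns n)) n ∈ Set.Icc (0:ℝ) 1)
  have h1 := RR_of_cluster HG HW HL hx (hns.comp hφ.tendsto_atTop) hlim
  rw [RR_unique HG HL HP hσ h1]
  exact ⟨φ, hlim⟩

/-- (iv) the ratio function is continuous -/
theorem ratio_cont (HG : S_GROW) (HL : S_LAM) (HP : S_PATH) {r : ℝ → ℝ}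
    (hr : ∀ t, RR t (r t)) : Continuous r := by
  rw [continuous_iff_continuousAt]
  intro t₀
  apply tendsto_of_seq_tendsto
  intro u hu
  apply tendsto_of_subseq_tendsto
  intro ns hns
  obtain ⟨σ', hσ', φ, hφ, hlim⟩ := (isCompact_Icc (a := (0:ℝ)) (b := 1)).tendsto_subseq
    (fun n => ⟨(hr (u (ns n))).1.1, (hr (u (ns n))).1.2⟩ :
      ∀ n, (fun n => r (u (ns n))) n ∈ Set.Icc (0:ℝ) 1)
  have hu' : Tendsto (fun n => u (ns (φ n))) atTop (𝓝 t₀) := hu.comp (hns.comp hφ.tendsto_atTop)
  have hlim' : Tendsto (fun n => r (u (ns (φ n)))) atTop (𝓝 σ') := hlim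
  have h1 : RR t₀ σ' := by
    refine ⟨⟨hσ'.1, hσ'.2⟩, ?_⟩
    intro p q ho hp hq hs
    have h2 : Tendsto (fun n => Lam (u (ns (φ n))) - u (ns (φ n)) * r (u (ns (φ n)))) atTop
        (𝓝 (Lam t₀ - t₀ * σ')) :=
      (((Lam_cont HG).tendsto t₀).comp hu').sub (hu'.mul hlim')
    refine le_of_tendsto_of_tendsto h2 (ell_tendsto p q hlim') ?_
    rcases hs with hs | hs
    · filter_upwards [hlim'.eventually_lt_const hs] with k hk
      exact (hr _).2 p q ho hp hq (Or.inl hk)
    · filter_upwards [hlim'.eventually_const_lt hs] with k hk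
      exact (hr _).2 p q ho hp hq (Or.inr hk)
  refine ⟨φ, ?_⟩
  rw [RR_unique HG HL HP (hr t₀) h1]
  exact hlim'

end K1H25.JS
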