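import Pool.Agent.K1H25.JS.Exist

namespace K1H25.JS

open Matrix Filter Topology

/-! ## the value at `t = 0` -/

def flip (x : ℕ → Bool) : ℕ → Bool := fun n => !(x n)

theorem pre_flip (x : ℕ → Bool) (n : ℕ) : pre (flip x) n = (pre x n).map (fun b => !b) := by
  induction n with
  | zero => rfl
  | succ n ih => simp [pre, ih, flip]

theorem count_map_not (w : List Bool) : (w.map (fun b => !b)).count true = w.count false := by
  induction w with
  | nil => rfl
  | cons c w ih => cases c <;> simp [ih]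

theorem ev_map_not (w : List Bool) :
    ev A0 A1 (w.map (fun b => !b)) 0 0 = ev A0 A1 w 1 1 ∧
    ev A0 A1 (w.map (fun b => !b)) 0 1 = ev A0 A1 w 1 0 ∧
    ev A0 A1 (w.map (fun b => !b)) 1 0 = ev A0 A1 w 0 1 ∧
    ev A0 A1 (w.map (fun b => !b)) 1 1 = ev A0 A1 w 0 0 := by
  induction w with
  | nil => simp [ev]
  | cons c w ih =>
    obtain ⟨h1, h2, h3, h4⟩ := ih
    cases c
    · rw [List.map_cons, Bool.not_false, ev_true, ev_false]
      simp [h1, h2, h3, h4, add_comm]
    · rw [List.map_cons, Bool.not_true, ev_true, ev_false]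
      simp [h1, h2, h3, h4, add_comm]

theorem nrm_flip (w : List Bool) : nrm (ev A0 A1 (w.map (fun b => !b))) = nrm (ev A0 A1 w) := by
  obtain ⟨h1, h2, h3, h4⟩ := ev_map_not w
  rw [nrm_eq, nrm_eq, h1, h2, h3, h4]
  ring

theorem freq_flip (x : ℕ → Bool) {n : ℕ} (hn : 1 ≤ n) : freq (flip x) n = 1 - freq x n := by
  have hpos : (n : ℝ) ≠ 0 := by positivity
  rw [freq_eq, freq_eq, pre_flip]
  unfold slope
  rw [count_map_not, List.length_map, length_pre]
  have h := len_count (pre x n)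
  rw [length_pre] at h
  have h' : (n : ℝ) = (pre x n).count false + (pre x n).count true := by exact_mod_cast h
  field_simp
  linarith

theorem we_flip (HG : S_GROW) (HW : S_WE) {x : ℕ → Bool}
    (hx : WeaklyExtremal (Real.exp 0) x) : WeaklyExtremal (Real.exp 0) (flip x) := by
  have h := (HW (fun t => (HG t).1) 0 x).1 hx
  refine (HW (fun t => (HG t).1) 0 (flip x)).2 ?_
  refine h.congr (fun n => ?_)
  unfold wt
  rw [pre_flip, nrm_flip]
  simp

theorem ratio_zero (HG : S_GROW) (HW : S_WE) (HL : S_LAM) (HP : S_PATH) {σ : ℝ}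
    (hσ : RR 0 σ) : σ = 1 / 2 := by
  obtain ⟨x, hx⟩ := we_exists HG HW 0
  have h1 := freq_tendsto HG HW HL HP hσ hx
  have h2 := freq_tendsto HG HW HL HP hσ (we_flip HG HW hx)
  have h3 : Tendsto (freq (flip x)) atTop (𝓝 (1 - σ)) := by
    refine (tendsto_const_nhds.sub h1).congr' ?_
    filter_upwards [eventually_ge_atTop 1] with n hn
    rw [freq_flip x hn]
  have h4 := tendsto_nhds_unique h2 h3
  linarith

/-! ## the ratio is small for small `α` -/

theorem nrm_le_pow (w : List Bool) : nrm (ev A0 A1 w) ≤ 2 ^ (w.length + 1) := by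
  induction w with
  | nil =>
    rw [nrm_eq]; simp [ev]; norm_num
  | cons c w ih =>
    obtain ⟨h1, h2, h3, h4⟩ := ev_nn w
    have h5 : nrm (ev A0 A1 (c :: w)) ≤ 2 * nrm (ev A0 A1 w) := by
      rw [nrm_eq, nrm_eq]
      cases c
      · rw [ev_false]; simp; linarith
      · rw [ev_true]; simp; linarith
    rw [List.length_cons, pow_succ]
    linarith

theorem ratio_bound (HG : S_GROW) (HW : S_WE) (HL : S_LAM) (HP : S_PATH) {t σ : ℝ}
    (hσ : RR t σ) : - t * σ ≤ Real.log 2 := by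
  obtain ⟨x, hx⟩ := we_exists HG HW t
  have h1 := freq_tendsto HG HW HL HP hσ hx
  have h2 := gr_tendsto HG HW hx tendsto_id h1
  have h3 : Tendsto (fun n : ℕ => Real.log 2 + Real.log 2 / (n : ℝ)) atTop
      (𝓝 (Real.log 2 + 0)) :=
    tendsto_const_nhds.add (tendsto_const_div_atTop_nhds_zero_nat _)
  have h4 : Lam t - t * σ ≤ Real.log 2 + 0 := by
    refine le_of_tendsto_of_tendsto h2 h3 ?_
    filter_upwards [eventually_ge_atTop 1] with n hn
    have hpos : (0 : ℝ) < (n : ℝ) := by exact_mod_cast hn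
    have h5 := Real.log_le_log (by linarith [nrm_ge_two (pre x n)]) (nrm_le_pow (pre x n))
    rw [Real.log_pow, length_pre] at h5
    simp only [id]
    unfold gr
    rw [div_le_iff₀ hpos, add_mul, div_mul_cancel₀ _ hpos.ne']
    push_cast at h5
    linarith
  have h6 := per_lower HG t [false]
  have h7 : 0 ≤ NN [false] := NN_nonneg (trace_ev_ge_two _)
  simp at h6
  linarith

/-- every `γ ∈ (0, 1/2)` is a ratio for some `t ≤ 0` -/
theorem ratio_surj (HG : S_GROW) (HW : S_WE) (HL : S_LAM) (HP : S_PATH) {γ : ℝ} (h0 : 0 < γ)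
    (h1 : γ ≤ 1 / 2) : ∃ t : ℝ, t ≤ 0 ∧ RR t γ := by
  choose r hr using RR_exists HG HW HL
  have hc := ratio_cont HG HL HP hr
  have hz : r 0 = 1 / 2 := ratio_zero HG HW HL HP (hr 0)
  set T : ℝ := Real.log 2 / γ + 1 with hT
  have hlog : 0 < Real.log 2 := Real.log_pos (by norm_num)
  have hT0 : 0 < T := by positivity
  have hb := ratio_bound HG HW HL HP (hr (-T))
  have hle : r (-T) ≤ γ := by
    rw [neg_neg] at hb
    by_contra hcon
    push Not at hcon
    have h3 : T * γ ≤ T * r (-T) := mul_le_mul_of_nonneg_left hcon.le hT0.le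
    have h4 : T * γ = Real.log 2 + γ := by rw [hT]; field_simp
    linarith
  have := intermediate_value_Icc (by linarith : -T ≤ 0) hc.continuousOn
  obtain ⟨t, ht, hrt⟩ := this ⟨hle, by rw [hz]; exact h1⟩
  exact ⟨t, ht.2, hrt ▸ hr t⟩

/-! ## the final statements -/

/-- `r` is the unique optimal 1-ratio of `𝖠_α` -/
def IsOptimalRatio (α r : ℝ) : Prop :=
  (0 ≤ r ∧ r ≤ 1) ∧ ∀ x : ℕ → Bool, WeaklyExtremal α x → Tendsto (freq x) atTop (𝓝 r)

theorem freq_all_false {x : ℕ → Bool} (h : ∀ n, x n = false) : Tendsto (freq x) atTop (𝓝 0) := by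
  have : freq x = fun _ => 0 := by
    funext n
    unfold freq
    simp [h]
  rw [this]
  exact tendsto_const_nhds

theorem zero_case (HZ : S_ZERO) (r : ℝ) : IsOptimalRatio 0 r ↔ r = 0 := by
  constructor
  · intro h
    have h1 := h.2 (fun _ => false) ((HZ _).2 (fun _ => rfl))
    exact tendsto_nhds_unique h1 (freq_all_false (fun _ => rfl))
  · rintro rfl
    exact ⟨⟨le_rfl, by norm_num⟩, fun x hx => freq_all_false ((HZ x).1 hx)⟩

theorem pos_case (HG : S_GROW) (HW : S_WE) (HL : S_LAM) (HP : S_PATH) {α : ℝ} (hα : 0 < α)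
    (r : ℝ) : IsOptimalRatio α r ↔ RR (Real.log α) r := by
  have he : Real.exp (Real.log α) = α := Real.exp_log hα
  obtain ⟨σ, hσ⟩ := RR_exists HG HW HL (Real.log α)
  constructor
  · intro h
    obtain ⟨x, hx⟩ := we_exists HG HW (Real.log α)
    have h1 := freq_tendsto HG HW HL HP hσ hx
    have h2 := h.2 x (by rwa [he] at hx)
    rw [tendsto_nhds_unique h2 h1]
    exact hσ
  · intro h
    refine ⟨h.1, fun x hx => ?_⟩
    exact freq_tendsto HG HW HL HP h (by rwa [he])

theorem main (HG : S_GROW) (HW : S_WE) (HZ : S_ZERO) (HL : S_LAM) (HP : S_PATH) :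
    (∀ α : ℝ, 0 ≤ α → α ≤ 1 →
      (∃ x, WeaklyExtremal α x) ∧ ∃! r : ℝ, IsOptimalRatio α r) ∧
    (∀ γ : ℝ, Irrational γ → 0 ≤ γ → γ ≤ 1 / 2 →
      ∃! α : ℝ, (0 ≤ α ∧ α ≤ 1) ∧ IsOptimalRatio α γ) := by
  constructor
  · intro α h0 _
    rcases h0.eq_or_lt with h0 | h0
    · subst h0
      exact ⟨⟨fun _ => false, (HZ _).2 (fun _ => rfl)⟩, 0, (zero_case HZ 0).2 rfl,
        fun r hr => (zero_case HZ r).1 hr⟩
    · refine ⟨?_, ?_⟩
      · obtain ⟨x, hx⟩ := we_exists HG HW (Real.log α)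
        rw [Real.exp_log h0] at hx
        exact ⟨x, hx⟩
      · obtain ⟨σ, hσ⟩ := RR_exists HG HW HL (Real.log α)
        refine ⟨σ, (pos_case HG HW HL HP h0 σ).2 hσ, fun r hr => ?_⟩
        exact RR_unique HG HL HP ((pos_case HG HW HL HP h0 r).1 hr) hσ
  · intro γ hirr h0 h1
    have hγ0 : 0 < γ := lt_of_le_of_ne h0 (fun h => by
      rw [← h] at hirr; exact (not_irrational_zero) hirr)
    obtain ⟨t, ht, hRR⟩ := ratio_surj HG HW HL HP hγ0 h1
    have hpos := Real.exp_pos t
    refine ⟨Real.exp t, ⟨⟨hpos.le, Real.exp_le_one_iff.2 ht⟩,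
      (pos_case HG HW HL HP hpos γ).2 (by rwa [Real.log_exp])⟩, ?_⟩
    rintro β ⟨⟨hβ0, hβ1⟩, hβ⟩
    have hβpos : 0 < β := lt_of_le_of_ne hβ0 (fun h => by
      rw [← h] at hβ
      exact hγ0.ne' ((zero_case HZ γ).1 hβ))
    have h2 : Real.log β = t := by
      obtain ⟨x, hx⟩ := we_exists HG HW (Real.log β)
      obtain ⟨y, hy⟩ := we_exists HG HW t
      have hRβ := (pos_case HG HW HL HP hβpos γ).1 hβ
      exact uniq HG HW HL HP hirr hγ0 (by linarith) hx (freq_tendsto HG HW HL HP hRβ hx) hy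
        (freq_tendsto HG HW HL HP hRR hy)
    rw [← h2, Real.exp_log hβpos]

end K1H25.JS
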