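import Pool.Agent.K1H25.JS.Stm

namespace K1H25.JS

open Matrix

/-! ## 2×2 identities -/

/-- the anti-automorphism `M ↦ K adj(M) K` -/
noncomputable def sg (K M : M2) : M2 := K * M.adjugate * K

theorem two_ext {A B : M2} (h00 : A 0 0 = B 0 0) (h01 : A 0 1 = B 0 1) (h10 : A 1 0 = B 1 0)
    (h11 : A 1 1 = B 1 1) : A = B := by
  ext i j
  fin_cases i <;> fin_cases j <;> assumption

theorem tr2 (A : M2) : A.trace = A 0 0 + A 1 1 := Matrix.trace_fin_two A

theorem mul00 (A B : M2) : (A * B) 0 0 = A 0 0 * B 0 0 + A 0 1 * B 1 0 := by
  simp [Matrix.mul_apply, Fin.sum_univ_two]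
theorem mul01 (A B : M2) : (A * B) 0 1 = A 0 0 * B 0 1 + A 0 1 * B 1 1 := by
  simp [Matrix.mul_apply, Fin.sum_univ_two]
theorem mul10 (A B : M2) : (A * B) 1 0 = A 1 0 * B 0 0 + A 1 1 * B 1 0 := by
  simp [Matrix.mul_apply, Fin.sum_univ_two]
theorem mul11 (A B : M2) : (A * B) 1 1 = A 1 0 * B 0 1 + A 1 1 * B 1 1 := by
  simp [Matrix.mul_apply, Fin.sum_univ_two]

theorem adj00 (A : M2) : A.adjugate 0 0 = A 1 1 := by simp [Matrix.adjugate_fin_two]
theorem adj01 (A : M2) : A.adjugate 0 1 = - A 0 1 := by simp [Matrix.adjugate_fin_two]
theorem adj10 (A : M2) : A.adjugate 1 0 = - A 1 0 := by simp [Matrix.adjugate_fin_two]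
theorem adj11 (A : M2) : A.adjugate 1 1 = A 0 0 := by simp [Matrix.adjugate_fin_two]

theorem KK {K : M2} (ht : K.trace = 0) (hd : K.det = -1) : K * K = 1 := by
  rw [tr2] at ht
  rw [Matrix.det_fin_two] at hd
  apply two_ext
  · rw [mul00]; simp; linear_combination K 0 0 * ht - hd
  · rw [mul01]; simp; linear_combination K 0 1 * ht
  · rw [mul10]; simp; linear_combination K 1 0 * ht
  · rw [mul11]; simp; linear_combination K 1 1 * ht - hd

/-- `M - σ(M) = tr(MK) K` -/
theorem sub_sg {K : M2} (ht : K.trace = 0) (hd : K.det = -1) (M : M2) :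
    M - sg K M = (M * K).trace • K := by
  rw [tr2] at ht
  rw [Matrix.det_fin_two] at hd
  have h11 : K 1 1 = - K 0 0 := by linarith
  rw [h11] at hd
  unfold sg
  apply two_ext
  · simp only [Matrix.sub_apply, Matrix.smul_apply, tr2, mul00, mul01, mul10, mul11, adj00, adj01,
      adj10, adj11, h11, smul_eq_mul]
    linear_combination (M 0 0 ) * hd
  · simp only [Matrix.sub_apply, Matrix.smul_apply, tr2, mul00, mul01, mul10, mul11, adj00, adj01,
      adj10, adj11, h11, smul_eq_mul]
    linear_combination (M 0 1 ) * hd
  · simp only [Matrix.sub_apply, Matrix.smul_apply, tr2, mul00, mul01, mul10, mul11, adj00, adj01,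
      adj10, adj11, h11, smul_eq_mul]
    linear_combination (M 1 0 ) * hd
  · simp only [Matrix.sub_apply, Matrix.smul_apply, tr2, mul00, mul01, mul10, mul11, adj00, adj01,
      adj10, adj11, h11, smul_eq_mul]
    linear_combination (M 1 1 ) * hd

theorem sg_mul {K : M2} (hK : K * K = 1) (M N : M2) : sg K (M * N) = sg K N * sg K M := by
  unfold sg
  rw [Matrix.adjugate_mul_distrib]
  calc K * (N.adjugate * M.adjugate) * K = K * N.adjugate * (1 : M2) * M.adjugate * K := by
        simp only [Matrix.mul_assoc, Matrix.one_mul]
    _ = K * N.adjugate * (K * K) * M.adjugate * K := by rw [hK]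
    _ = _ := by simp only [Matrix.mul_assoc]

theorem sg_one {K : M2} (hK : K * K = 1) : sg K 1 = 1 := by
  unfold sg; simp [hK]

/-- `tr(σ(M)K) = - tr(MK)` -/
theorem tr_sg {K : M2} (ht : K.trace = 0) (hd : K.det = -1) (M : M2) :
    (sg K M * K).trace = - (M * K).trace := by
  have h := sub_sg ht hd M
  have hKK := KK ht hd
  have h2 : (M * K).trace - (sg K M * K).trace = (M * K).trace * 2 := by
    rw [← Matrix.trace_sub, ← Matrix.sub_mul, h, Matrix.smul_mul, hKK, Matrix.trace_smul]
    simp [Matrix.trace_one]
  linarith

/-- if `tr(PK) = 0` then `P K = K adj P` and `σ(P) = P` -/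
theorem comm_adj {K P : M2} (ht : K.trace = 0) (hp : (P * K).trace = 0) :
    P * K = K * P.adjugate := by
  rw [tr2] at ht hp
  rw [mul00, mul11] at hp
  have h11 : K 1 1 = - K 0 0 := by linarith
  rw [h11] at hp
  apply two_ext
  · simp only [mul00, mul01, mul10, mul11, adj00, adj01, adj10, adj11, h11]
    linear_combination hp
  · simp only [mul00, mul01, mul10, mul11, adj00, adj01, adj10, adj11, h11]
    ring
  · simp only [mul00, mul01, mul10, mul11, adj00, adj01, adj10, adj11, h11]
    ring
  · simp only [mul00, mul01, mul10, mul11, adj00, adj01, adj10, adj11, h11]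
    linear_combination hp

theorem sg_self {K P : M2} (ht : K.trace = 0) (hd : K.det = -1) (hp : (P * K).trace = 0) :
    sg K P = P := by
  unfold sg
  rw [← comm_adj ht hp, Matrix.mul_assoc, KK ht hd, Matrix.mul_one]

/-! ## words -/

theorem ev_append (U V : M2) (a b : List Bool) : ev U V (a ++ b) = ev U V a * ev U V b := by
  induction a with
  | nil => simp [ev]
  | cons c a ih =>
    cases c <;> simp [ev, ih, Matrix.mul_assoc]

theorem ev_replicate_false (U V : M2) (k : ℕ) : ev U V (List.replicate k false) = U ^ k := by
  induction k with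
  | zero => simp [ev]
  | succ k ih => rw [List.replicate_succ, ev, ih, pow_succ']

theorem ev_replicate_true (U V : M2) (k : ℕ) : ev U V (List.replicate k true) = V ^ k := by
  induction k with
  | zero => simp [ev]
  | succ k ih => rw [List.replicate_succ, ev, ih, pow_succ']

/-- the substitution `0 ↦ 0, 1 ↦ 01` -/
def subL : List Bool → List Bool
  | [] => []
  | false :: w => false :: subL w
  | true :: w => false :: true :: subL w

/-- the substitution `0 ↦ 01, 1 ↦ 1` -/
def subR : List Bool → List Bool
  | [] => []
  | false :: w => false :: true :: subR w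
  | true :: w => true :: subR w

theorem ev_subL (U V : M2) (w : List Bool) : ev U V (subL w) = ev U (U * V) w := by
  induction w with
  | nil => simp [ev, subL]
  | cons c w ih => cases c <;> simp [ev, subL, ih, Matrix.mul_assoc]

theorem ev_subR (U V : M2) (w : List Bool) : ev U V (subR w) = ev (U * V) V w := by
  induction w with
  | nil => simp [ev, subR]
  | cons c w ih => cases c <;> simp [ev, subR, ih, Matrix.mul_assoc]

theorem cc_ff (w : List Bool) : (false :: w).count false = w.count false + 1 := by simp
theorem cc_tt (w : List Bool) : (true :: w).count true = w.count true + 1 := by simp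
theorem cc_ft (w : List Bool) : (false :: w).count true = w.count true := by simp
theorem cc_tf (w : List Bool) : (true :: w).count false = w.count false := by simp

theorem count_subL_f (w : List Bool) : (subL w).count false = w.count false + w.count true := by
  induction w with
  | nil => simp [subL]
  | cons c w ih => cases c <;> simp only [subL, cc_ff, cc_tt, cc_ft, cc_tf, ih] <;> omega

theorem count_subL_t (w : List Bool) : (subL w).count true = w.count true := by
  induction w with
  | nil => simp [subL]
  | cons c w ih => cases c <;> simp only [subL, cc_ff, cc_tt, cc_ft, cc_tf, ih]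

theorem count_subR_f (w : List Bool) : (subR w).count false = w.count false := by
  induction w with
  | nil => simp [subR]
  | cons c w ih => cases c <;> simp [subR, ih]

theorem count_subR_t (w : List Bool) : (subR w).count true = w.count false + w.count true := by
  induction w with
  | nil => simp [subR]
  | cons c w ih => cases c <;> simp only [subR, cc_ff, cc_tt, cc_ft, cc_tf, ih] <;> omega

/-! ## good pairs -/

/-- the commutator `UV - VU` -/
noncomputable def cK (U V : M2) : M2 := U * V - V * U

structure Good (U V : M2) : Prop where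
  detU : U.det = 1
  detV : V.det = 1
  detK : (cK U V).det = -1
  pos : ∀ r, 0 < (U * ev U V r * V * cK U V).trace
  trU : 2 ≤ U.trace
  trV : 2 ≤ V.trace
  leU : U.trace ≤ (U * V).trace
  leV : V.trace ≤ (U * V).trace
  lar : U.trace * V.trace ≤ 2 * (U * V).trace

theorem trK (U V : M2) : (cK U V).trace = 0 := by
  unfold cK
  rw [Matrix.trace_sub, Matrix.trace_mul_comm, sub_self]

theorem trUK (U V : M2) : (U * cK U V).trace = 0 := by
  unfold cK
  rw [Matrix.mul_sub, Matrix.trace_sub, ← Matrix.mul_assoc U V U, Matrix.trace_mul_comm (U * V) U,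
    sub_self]

theorem trVK (U V : M2) : (V * cK U V).trace = 0 := by
  unfold cK
  rw [Matrix.mul_sub, Matrix.trace_sub, ← Matrix.mul_assoc V U V, Matrix.trace_mul_comm (V * U) V,
    sub_self]

theorem sg_ev {U V : M2} (hd : (cK U V).det = -1) (w : List Bool) :
    sg (cK U V) (ev U V w) = ev U V w.reverse := by
  have hKK := KK (trK U V) hd
  induction w with
  | nil => simp [ev, sg_one hKK]
  | cons c w ih =>
    cases c
    · rw [List.reverse_cons, ev_append, ev, sg_mul hKK, ih, sg_self (trK U V) hd (trUK U V)]
      simp [ev]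
    · rw [List.reverse_cons, ev_append, ev, sg_mul hKK, ih, sg_self (trK U V) hd (trVK U V)]
      simp [ev]

/-- the exchange identity -/
theorem exchange {U V : M2} (h : Good U V) (r s : List Bool) :
    (ev U V (false :: false :: r ++ true :: true :: s)).trace <
      (ev U V (false :: (true :: r.reverse ++ [false]) ++ true :: s)).trace := by
  have hd := h.detK
  have hKK := KK (trK U V) hd
  set K := cK U V with hK
  set M := ev U V (false :: r ++ [true]) with hM
  have e1 : ev U V (false :: false :: r ++ true :: true :: s) = U * M * (V * ev U V s) := by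
    rw [hM]
    simp [ev, ev_append, Matrix.mul_assoc]
  have e2 : ev U V (false :: (true :: r.reverse ++ [false]) ++ true :: s) =
      U * sg K M * (V * ev U V s) := by
    rw [hM, sg_ev hd]
    simp [ev, ev_append, Matrix.mul_assoc]
  have e3 : M - sg K M = (M * K).trace • K := sub_sg (trK U V) hd M
  have e4 : (U * M * (V * ev U V s)).trace - (U * sg K M * (V * ev U V s)).trace =
      (M * K).trace * (U * K * (V * ev U V s)).trace := by
    rw [← Matrix.trace_sub, ← Matrix.sub_mul, ← Matrix.mul_sub, e3]
    simp [Matrix.trace_smul]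
  have e5 : 0 < (M * K).trace := by
    have := h.pos r
    rw [hM]
    simpa [ev, ev_append, Matrix.mul_assoc] using this
  have e6 : (U * K * (V * ev U V s)).trace = (ev U V (true :: s ++ [false]) * K).trace := by
    rw [Matrix.mul_assoc, Matrix.trace_mul_comm, Matrix.mul_assoc K, Matrix.trace_mul_comm K]
    simp [ev, ev_append, Matrix.mul_assoc]
  have e7 : (ev U V (true :: s ++ [false]) * K).trace =
      - (U * ev U V s.reverse * V * K).trace := by
    have h7 := tr_sg (trK U V) hd (ev U V (true :: s ++ [false]))
    rw [sg_ev hd] at h7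
    have : ev U V (true :: s ++ [false]).reverse = U * ev U V s.reverse * V := by
      simp [ev, ev_append, Matrix.mul_assoc]
    rw [this] at h7
    rw [h7]; ring
  have e8 := h.pos s.reverse
  rw [e1, e2]
  rw [e6, e7] at e4
  have : 0 < (M * K).trace * (U * ev U V s.reverse * V * K).trace := mul_pos e5 e8
  nlinarith

/-! ## the two steps preserve good pairs -/

/-- Cayley–Hamilton trace identity -/
theorem tr_UUV {U V : M2} (hU : U.det = 1) : (U * (U * V)).trace = U.trace * (U * V).trace - V.trace := by
  rw [Matrix.det_fin_two] at hU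
  simp only [tr2, mul00, mul01, mul10, mul11]
  linear_combination (-(V 0 0 + V 1 1)) * hU

theorem tr_UVV {U V : M2} (hV : V.det = 1) : (U * V * V).trace = V.trace * (U * V).trace - U.trace := by
  rw [Matrix.det_fin_two] at hV
  simp only [tr2, mul00, mul01, mul10, mul11]
  linear_combination (-(U 0 0 + U 1 1)) * hV

/-- Fricke: `det(UV - VU) = 4 - x² - y² - z² + xyz` -/
theorem fricke {U V : M2} (hU : U.det = 1) (hV : V.det = 1) :
    (cK U V).det = 4 - U.trace ^ 2 - V.trace ^ 2 - (U * V).trace ^ 2 +
      U.trace * V.trace * (U * V).trace := by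
  rw [Matrix.det_fin_two] at hU hV
  unfold cK
  rw [Matrix.det_fin_two]
  simp only [Matrix.sub_apply, tr2, mul00, mul01, mul10, mul11]
  linear_combination (4 * (V 0 0 * V 1 1 - V 0 1 * V 1 0) - (V 0 0 + V 1 1) ^ 2) * hU +
    (4 - (U 0 0 + U 1 1) ^ 2) * hV

theorem K_adj {K P : M2} (ht : K.trace = 0) (hp : (P * K).trace = 0) :
    K * P = P.adjugate * K := by
  rw [tr2] at ht hp
  rw [mul00, mul11] at hp
  have h11 : K 1 1 = - K 0 0 := by linarith
  rw [h11] at hp
  apply two_ext
  · simp only [mul00, mul01, mul10, mul11, adj00, adj01, adj10, adj11, h11]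
    linear_combination hp
  · simp only [mul00, mul01, mul10, mul11, adj00, adj01, adj10, adj11, h11]
    ring
  · simp only [mul00, mul01, mul10, mul11, adj00, adj01, adj10, adj11, h11]
    ring
  · simp only [mul00, mul01, mul10, mul11, adj00, adj01, adj10, adj11, h11]
    linear_combination hp

theorem cK_left (U V : M2) : cK U (U * V) = U * cK U V := by
  unfold cK
  rw [Matrix.mul_sub, Matrix.mul_assoc U V U]

theorem cK_right (U V : M2) : cK (U * V) V = cK U V * V := by
  unfold cK
  rw [Matrix.sub_mul, Matrix.mul_assoc V U V]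

theorem subL_head (w : List Bool) (h : w ≠ []) : ∃ t, subL w = false :: t := by
  cases w with
  | nil => exact absurd rfl h
  | cons c w => cases c <;> exact ⟨_, rfl⟩

theorem subR_last (w : List Bool) : w ≠ [] → ∃ t, subR w = t ++ [true] := by
  induction w with
  | nil => intro h; exact absurd rfl h
  | cons c w ih =>
    intro _
    by_cases hw : w = []
    · subst hw
      cases c
      · exact ⟨[false], rfl⟩
      · exact ⟨[], rfl⟩
    · obtain ⟨t, ht⟩ := ih hw
      cases c
      · exact ⟨false :: true :: t, by simp [subR, ht]⟩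
      · exact ⟨true :: t, by simp [subR, ht]⟩

theorem Good.left {U V : M2} (h : Good U V) : Good U (U * V) where
  detU := h.detU
  detV := by rw [Matrix.det_mul, h.detU, h.detV, mul_one]
  detK := by rw [cK_left, Matrix.det_mul, h.detU, h.detK, one_mul]
  pos := by
    intro r
    rw [cK_left, ← ev_subL]
    have hK : cK U V * U = U.adjugate * cK U V := K_adj (trK U V) (trUK U V)
    have hK2 : U * cK U V = cK U V * U.adjugate := comm_adj (trK U V) (trUK U V)
    have hUU : U.adjugate * U = 1 := by rw [Matrix.adjugate_mul, h.detU, one_smul]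
    have e1 : (U * ev U V (subL r) * (U * V) * (U * cK U V)).trace =
        (ev U V (subL r) * U * V * cK U V).trace := by
      rw [hK2]
      calc (U * ev U V (subL r) * (U * V) * (cK U V * U.adjugate)).trace
          = (U.adjugate * (U * ev U V (subL r) * (U * V) * cK U V)).trace := by
            rw [← Matrix.mul_assoc, Matrix.trace_mul_comm]
        _ = ((U.adjugate * U) * (ev U V (subL r) * U * V * cK U V)).trace := by
            simp only [Matrix.mul_assoc]
        _ = _ := by rw [hUU, Matrix.one_mul]
    rw [e1]
    by_cases hr : r = []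
    · subst hr
      have := h.pos []
      simpa [subL, ev] using this
    · obtain ⟨t, ht⟩ := subL_head r hr
      have := h.pos (t ++ [false])
      rw [ht]
      simpa [ev, ev_append, Matrix.mul_assoc] using this
  trU := h.trU
  trV := le_trans h.trU h.leU
  leU := by
    rw [tr_UUV h.detU]
    nlinarith [h.trU, h.trV, h.leU, h.leV]
  leV := by
    rw [tr_UUV h.detU]
    nlinarith [h.trU, h.trV, h.leU, h.leV]
  lar := by
    rw [tr_UUV h.detU]
    nlinarith [h.trU, h.trV, h.leU, h.leV]

theorem Good.right {U V : M2} (h : Good U V) : Good (U * V) V where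
  detU := by rw [Matrix.det_mul, h.detU, h.detV, mul_one]
  detV := h.detV
  detK := by rw [cK_right, Matrix.det_mul, h.detV, h.detK, mul_one]
  pos := by
    intro r
    rw [cK_right, ← ev_subR]
    have hK : cK U V * V = V.adjugate * cK U V := K_adj (trK U V) (trVK U V)
    have hVV : V * V.adjugate = 1 := by rw [Matrix.mul_adjugate, h.detV, one_smul]
    have e1 : (U * V * ev U V (subR r) * V * (cK U V * V)).trace =
        (U * V * ev U V (subR r) * cK U V).trace := by
      rw [hK]
      calc (U * V * ev U V (subR r) * V * (V.adjugate * cK U V)).trace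
          = (U * V * ev U V (subR r) * (V * V.adjugate) * cK U V).trace := by
            simp only [Matrix.mul_assoc]
        _ = _ := by rw [hVV, Matrix.mul_one]
    rw [e1]
    by_cases hr : r = []
    · subst hr
      have := h.pos []
      simpa [subR, ev] using this
    · obtain ⟨t, ht⟩ := subR_last r hr
      have := h.pos (true :: t)
      rw [ht]
      simpa [ev, ev_append, Matrix.mul_assoc] using this
  trU := le_trans h.trU h.leU
  trV := h.trV
  leU := by
    rw [tr_UVV h.detV]
    nlinarith [h.trU, h.trV, h.leU, h.leV]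
  leV := by
    rw [tr_UVV h.detV]
    nlinarith [h.trU, h.trV, h.leU, h.leV]
  lar := by
    rw [tr_UVV h.detV]
    nlinarith [h.trU, h.trV, h.leU, h.leV]

end K1H25.JS
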