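import Pool.Agent.K1H25.JS.Star

namespace K1H25.JS

open Matrix

/-! ## entries of words -/

theorem ev_false (w : List Bool) :
    ev A0 A1 (false :: w) = !![ev A0 A1 w 0 0 + ev A0 A1 w 1 0, ev A0 A1 w 0 1 + ev A0 A1 w 1 1;
      ev A0 A1 w 1 0, ev A0 A1 w 1 1] := by
  apply two_ext <;> simp [ev, A0, Matrix.mul_apply, Fin.sum_univ_two]

theorem ev_true (w : List Bool) :
    ev A0 A1 (true :: w) = !![ev A0 A1 w 0 0, ev A0 A1 w 0 1;
      ev A0 A1 w 0 0 + ev A0 A1 w 1 0, ev A0 A1 w 0 1 + ev A0 A1 w 1 1] := by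
  apply two_ext <;> simp [ev, A1, Matrix.mul_apply, Fin.sum_univ_two]

theorem ev_nn (w : List Bool) : 1 ≤ ev A0 A1 w 0 0 ∧ 0 ≤ ev A0 A1 w 0 1 ∧ 0 ≤ ev A0 A1 w 1 0 ∧
    1 ≤ ev A0 A1 w 1 1 := by
  induction w with
  | nil => simp [ev]
  | cons c w ih =>
    obtain ⟨h1, h2, h3, h4⟩ := ih
    cases c
    · rw [ev_false]
      simp
      refine ⟨by linarith, by linarith, h3, h4⟩
    · rw [ev_true]
      simp
      refine ⟨h1, h2, by linarith, by linarith⟩

theorem nrm_eq (w : List Bool) : nrm (ev A0 A1 w) =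
    ev A0 A1 w 0 0 + ev A0 A1 w 0 1 + ev A0 A1 w 1 0 + ev A0 A1 w 1 1 := by
  obtain ⟨h1, h2, h3, h4⟩ := ev_nn w
  unfold nrm
  simp only [Fin.sum_univ_two]
  rw [abs_of_nonneg (by linarith : (0:ℝ) ≤ ev A0 A1 w 0 0), abs_of_nonneg h2, abs_of_nonneg h3,
    abs_of_nonneg (by linarith : (0:ℝ) ≤ ev A0 A1 w 1 1)]
  ring

theorem nrm_ge_two (w : List Bool) : 2 ≤ nrm (ev A0 A1 w) := by
  obtain ⟨h1, h2, h3, h4⟩ := ev_nn w
  rw [nrm_eq]; linarith

theorem tr_le_nrm (w : List Bool) : (ev A0 A1 w).trace ≤ nrm (ev A0 A1 w) := by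
  obtain ⟨h1, h2, h3, h4⟩ := ev_nn w
  rw [nrm_eq, tr2]; linarith

theorem det_ev {U V : M2} (hU : U.det = 1) (hV : V.det = 1) (w : List Bool) : (ev U V w).det = 1 := by
  induction w with
  | nil => simp [ev]
  | cons c w ih => cases c <;> simp [ev, Matrix.det_mul, ih, hU, hV]

theorem detA0 : A0.det = 1 := by simp [A0, Matrix.det_fin_two]
theorem detA1 : A1.det = 1 := by simp [A1, Matrix.det_fin_two]

/-- the base pair is good -/
theorem good_base : Good A0 A1 where
  detU := detA0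
  detV := detA1
  detK := by
    rw [fricke detA0 detA1]
    simp only [tr2, mul00, mul11]
    simp [A0, A1]
    norm_num
  pos := by
    intro r
    obtain ⟨h1, h2, h3, h4⟩ := ev_nn r
    have : (A0 * ev A0 A1 r * A1 * cK A0 A1).trace =
        ev A0 A1 r 0 0 + ev A0 A1 r 0 1 + ev A0 A1 r 1 0 := by
      unfold cK
      simp only [tr2, mul00, mul01, mul10, mul11, Matrix.sub_apply]
      simp [A0, A1]
      ring
    rw [this]
    linarith
  trU := by simp [A0, Matrix.trace_fin_two]; norm_num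
  trV := by simp [A1, Matrix.trace_fin_two]; norm_num
  leU := by simp only [tr2, mul00, mul11]; simp [A0, A1]
  leV := by simp only [tr2, mul00, mul11]; simp [A0, A1]
  lar := by simp only [tr2, mul00, mul11]; simp [A0, A1]; norm_num

/-- all entries at least one -/
def Big (M : M2) : Prop := 1 ≤ M 0 0 ∧ 1 ≤ M 0 1 ∧ 1 ≤ M 1 0 ∧ 1 ≤ M 1 1

theorem big_word (m : List Bool) : Big (ev A0 A1 (false :: (m ++ [true]))) := by
  have key : ∀ m, 1 ≤ ev A0 A1 (m ++ [true]) 1 0 := by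
    intro m
    induction m with
    | nil => simp [ev, A1]
    | cons c m ih =>
      obtain ⟨h1, h2, h3, h4⟩ := ev_nn (m ++ [true])
      cases c
      · rw [List.cons_append, ev_false]; simpa using ih
      · rw [List.cons_append, ev_true]; simp; linarith
  obtain ⟨h1, h2, h3, h4⟩ := ev_nn (m ++ [true])
  have h5 := key m
  unfold Big
  rw [ev_false]
  simp
  refine ⟨by linarith, by linarith, h5, h4⟩

/-- multiplying by a big word -/
theorem nrm_le_tr_big {w v : List Bool} (hv : Big (ev A0 A1 v)) :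
    nrm (ev A0 A1 w) ≤ (ev A0 A1 (w ++ v)).trace := by
  obtain ⟨h1, h2, h3, h4⟩ := ev_nn w
  obtain ⟨g1, g2, g3, g4⟩ := hv
  rw [nrm_eq, ev_append, tr2, mul00, mul11]
  nlinarith

theorem big_sandwich {v w : List Bool} (hv : Big (ev A0 A1 v)) :
    ∀ c : ℝ, 0 ≤ c → c ≤ (ev A0 A1 w).trace →
    c ≤ ev A0 A1 (v ++ w ++ v) 0 0 ∧ c ≤ ev A0 A1 (v ++ w ++ v) 0 1 ∧
    c ≤ ev A0 A1 (v ++ w ++ v) 1 0 ∧ c ≤ ev A0 A1 (v ++ w ++ v) 1 1 := by
  intro c hc hcw
  obtain ⟨h1, h2, h3, h4⟩ := ev_nn w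
  obtain ⟨g1, g2, g3, g4⟩ := hv
  rw [tr2] at hcw
  rw [ev_append, ev_append]
  set W := ev A0 A1 w
  set V := ev A0 A1 v
  have a0 : W 0 0 + W 1 0 ≤ (V * W) 0 0 := by rw [mul00]; nlinarith
  have a1 : W 0 1 + W 1 1 ≤ (V * W) 0 1 := by rw [mul01]; nlinarith
  have a2 : W 0 0 + W 1 0 ≤ (V * W) 1 0 := by rw [mul10]; nlinarith
  have a3 : W 0 1 + W 1 1 ≤ (V * W) 1 1 := by rw [mul11]; nlinarith
  rw [mul00 (V * W), mul01 (V * W), mul10 (V * W), mul11 (V * W)]
  refine ⟨?_, ?_, ?_, ?_⟩ <;> nlinarith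

/-- `‖ev w‖ c ≤ tr(ev (w v z v))` if `c ≤ tr(ev z)` -/
theorem nrm_mul_le_tr {w z v : List Bool} (hv : Big (ev A0 A1 v)) (c : ℝ) (hc : 0 ≤ c)
    (hz : c ≤ (ev A0 A1 z).trace) :
    nrm (ev A0 A1 w) * c ≤ (ev A0 A1 (w ++ (v ++ z ++ v))).trace := by
  obtain ⟨h1, h2, h3, h4⟩ := ev_nn w
  obtain ⟨k1, k2, k3, k4⟩ := big_sandwich (w := z) hv c hc hz
  rw [ev_append A0 A1 w, nrm_eq, tr2, mul00, mul11]
  nlinarith

/-! ## orbit words -/

theorem orb_det {p q : List Bool} (h : Orb p q) :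
    p.count false * q.count true = p.count true * q.count false + 1 := by
  induction h with
  | base => simp
  | left _ ih => simp only [List.count_append]; nlinarith
  | right _ ih => simp only [List.count_append]; nlinarith

theorem orb_head_last {p q : List Bool} (h : Orb p q) :
    (∃ m, p ++ q = false :: (m ++ [true])) ∧ (p = [false] ∨ ∃ m, p = false :: (m ++ [true])) ∧
      (q = [true] ∨ ∃ m, q = false :: (m ++ [true])) := by
  induction h with
  | base => exact ⟨⟨[], rfl⟩, Or.inl rfl, Or.inl rfl⟩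
  | @left p q _ ih =>
    obtain ⟨⟨m, hm⟩, h1, h2⟩ := ih
    refine ⟨?_, h1, Or.inr ⟨m, hm⟩⟩
    rw [hm]
    rcases h1 with h1 | ⟨m', h1⟩
    · exact ⟨false :: m, by rw [h1]; rfl⟩
    · exact ⟨m' ++ [true] ++ false :: m, by rw [h1]; simp⟩
  | @right p q _ ih =>
    obtain ⟨⟨m, hm⟩, h1, h2⟩ := ih
    refine ⟨?_, Or.inr ⟨m, hm⟩, h2⟩
    rw [hm]
    rcases h2 with h2 | ⟨m', h2⟩
    · exact ⟨m ++ [true], by rw [h2]; simp⟩
    · exact ⟨m ++ [true] ++ false :: m', by rw [h2]; simp⟩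

theorem orb_good {p q : List Bool} (h : Orb p q) : Good (ev A0 A1 p) (ev A0 A1 q) := by
  induction h with
  | base => simpa [ev] using good_base
  | left _ ih => rw [ev_append]; exact ih.left
  | right _ ih => rw [ev_append]; exact ih.right

theorem orb_cone {p q : List Bool} (h : Orb p q) : ∀ (a b : ℕ) (w : List Bool),
    w.count false = a * p.count false + b * q.count false →
    w.count true = a * p.count true + b * q.count true →
    ∃ w', w'.count false = a ∧ w'.count true = b ∧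
      (ev A0 A1 w).trace ≤ (ev (ev A0 A1 p) (ev A0 A1 q) w').trace := by
  induction h with
  | base =>
    intro a b w h0 h1
    refine ⟨w, by simpa using h0, by simpa using h1, ?_⟩
    simp [ev]
  | @left p q hpq ih =>
    intro a b w h0 h1
    simp only [List.count_append] at h0 h1
    obtain ⟨w', e1, e2, e3⟩ := ih (a + b) b w (by rw [h0]; ring) (by rw [h1]; ring)
    obtain ⟨w'', f1, f2, f3⟩ := cone_left (orb_good hpq) a b w' e1 e2
    refine ⟨w'', f1, f2, ?_⟩
    rw [ev_append]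
    exact le_trans e3 f3
  | @right p q hpq ih =>
    intro a b w h0 h1
    simp only [List.count_append] at h0 h1
    obtain ⟨w', e1, e2, e3⟩ := ih a (a + b) w (by rw [h0]; ring) (by rw [h1]; ring)
    obtain ⟨w'', f1, f2, f3⟩ := cone_right (orb_good hpq) a b w' e1 e2
    refine ⟨w'', f1, f2, ?_⟩
    rw [ev_append]
    exact le_trans e3 f3

/-- the trace of an orbit word is larger than its length -/
theorem good_grow {U V : M2} (h : Good U V) : U.trace + V.trace - 1 ≤ (U * V).trace := by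
  have h1 := h.fr
  have h2 := h.lar
  have h3 := h.trU
  have h4 := h.trV
  set x := U.trace
  set y := V.trace
  set z := (U * V).trace
  by_contra hcon
  push Not at hcon
  have e : (z - (x + y - 1)) * (z + (x + y - 1) - x * y) =
      5 * (x - 2) * (y - 2) + (x - 2) ^ 2 * (y - 2) + (x - 2) * (y - 2) ^ 2 := by
    linear_combination h1
  have e2 : 0 ≤ 5 * (x - 2) * (y - 2) + (x - 2) ^ 2 * (y - 2) + (x - 2) * (y - 2) ^ 2 := by
    have a : 0 ≤ x - 2 := by linarith
    have b : 0 ≤ y - 2 := by linarith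
    positivity
  have e3 : 0 < z + (x + y - 1) - x * y := by linarith
  nlinarith

theorem orb_tr {p q : List Bool} (h : Orb p q) :
    (p.length : ℝ) + 1 ≤ (ev A0 A1 p).trace ∧ (q.length : ℝ) + 1 ≤ (ev A0 A1 q).trace := by
  induction h with
  | base =>
    constructor
    · simp [ev, A0, Matrix.trace_fin_two]
    · simp [ev, A1, Matrix.trace_fin_two]
  | @left p q hpq ih =>
    have := good_grow (orb_good hpq)
    refine ⟨ih.1, ?_⟩
    rw [ev_append, List.length_append]
    push_cast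
    linarith [ih.1, ih.2]
  | @right p q hpq ih =>
    have := good_grow (orb_good hpq)
    refine ⟨?_, ih.2⟩
    rw [ev_append, List.length_append]
    push_cast
    linarith [ih.1, ih.2]

end K1H25.JS
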