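import Pool.Agent.K1H25.JS.Cone

namespace K1H25.JS

open Matrix

/-! ## `E` and `lam` -/

theorem E_ge {x : ℝ} (hx : 2 ≤ x) : 1 ≤ E x := by
  unfold E
  have := Real.sqrt_nonneg (x ^ 2 - 4)
  linarith

theorem E_pos {x : ℝ} (hx : 2 ≤ x) : 0 < E x := by linarith [E_ge hx]

theorem E_add {x : ℝ} (hx : 2 ≤ x) : E x + (E x)⁻¹ = x := by
  have h1 := E_pos hx
  have hs : Real.sqrt (x ^ 2 - 4) ^ 2 = x ^ 2 - 4 := Real.sq_sqrt (by nlinarith)
  have h2 : E x * E x + 1 = x * E x := by
    unfold E
    nlinarith
  field_simp
  linarith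

theorem lam_nonneg {x : ℝ} (hx : 2 ≤ x) : 0 ≤ lam x := Real.log_nonneg (E_ge hx)

theorem exp_lam {x : ℝ} (hx : 2 ≤ x) : Real.exp (lam x) = E x := Real.exp_log (E_pos hx)

theorem half_le_E {x : ℝ} (_hx : 2 ≤ x) : x / 2 ≤ E x := by
  unfold E
  have := Real.sqrt_nonneg (x ^ 2 - 4)
  linarith

/-! ## traces of powers -/

theorem tr_pow_step {U : M2} (hd : U.det = 1) (k : ℕ) :
    (U ^ (k + 2)).trace = U.trace * (U ^ (k + 1)).trace - (U ^ k).trace := by
  rw [Matrix.det_fin_two] at hd
  have e1 : U ^ (k + 2) = U * (U * U ^ k) := by rw [pow_succ', pow_succ']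
  have e2 : U ^ (k + 1) = U * U ^ k := pow_succ' _ _
  rw [e1, e2]
  generalize U ^ k = W
  simp only [tr2, mul00, mul01, mul10, mul11]
  linear_combination (-(W 0 0 + W 1 1)) * hd

theorem tr_pow {U : M2} (hd : U.det = 1) (ht : 2 ≤ U.trace) (k : ℕ) :
    (U ^ k).trace = E U.trace ^ k + (E U.trace)⁻¹ ^ k := by
  have hE := E_pos ht
  have key : ∀ k, (U ^ k).trace = E U.trace ^ k + (E U.trace)⁻¹ ^ k ∧
      (U ^ (k + 1)).trace = E U.trace ^ (k + 1) + (E U.trace)⁻¹ ^ (k + 1) := by
    intro k
    induction k with
    | zero =>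
      constructor
      · simp [Matrix.trace_one]; norm_num
      · simp [E_add ht]
    | succ k ih =>
      refine ⟨ih.2, ?_⟩
      rw [tr_pow_step hd, ih.1, ih.2]
      have h3 : E U.trace * (E U.trace)⁻¹ = 1 := mul_inv_cancel₀ hE.ne'
      have h4 := E_add ht
      set X := E U.trace
      set Y := X⁻¹
      rw [← h4]
      have e5 : X ^ (k + 1) = X ^ k * X := pow_succ _ _
      have e6 : Y ^ (k + 1) = Y ^ k * Y := pow_succ _ _
      have e7 : X ^ (k + 1 + 1) = X ^ k * X * X := by rw [pow_succ, pow_succ]
      have e8 : Y ^ (k + 1 + 1) = Y ^ k * Y * Y := by rw [pow_succ, pow_succ]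
      rw [e5, e6, e7, e8]
      linear_combination (X ^ k + Y ^ k) * h3
  exact (key k).1

theorem tr_pow_le {U : M2} (hd : U.det = 1) (ht : 2 ≤ U.trace) (k : ℕ) :
    (U ^ k).trace ≤ 2 * Real.exp (k * lam U.trace) := by
  rw [tr_pow hd ht, Real.exp_nat_mul, exp_lam ht]
  have h1 := E_ge ht
  have h2 : (E U.trace)⁻¹ ^ k ≤ 1 := pow_le_one₀ (inv_nonneg.2 (by linarith)) (inv_le_one_of_one_le₀ h1)
  have h3 : 1 ≤ E U.trace ^ k := one_le_pow₀ h1
  linarith

theorem le_tr_pow {U : M2} (hd : U.det = 1) (ht : 2 ≤ U.trace) (k : ℕ) :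
    Real.exp (k * lam U.trace) ≤ (U ^ k).trace := by
  rw [tr_pow hd ht, Real.exp_nat_mul, exp_lam ht]
  have h2 : 0 ≤ (E U.trace)⁻¹ ^ k := pow_nonneg (inv_nonneg.2 (E_pos ht).le) k
  linarith

/-! ## the main upper bound (★) -/

/-- the error term -/
noncomputable def eps (x y : ℝ) : ℝ := 2 * Real.exp (-2 * (lam x + lam y))

theorem eps_nonneg (x y : ℝ) : 0 ≤ eps x y := by unfold eps; positivity

theorem Good.fr {U V : M2} (h : Good U V) :
    U.trace ^ 2 + V.trace ^ 2 + (U * V).trace ^ 2 - U.trace * V.trace * (U * V).trace = 5 := by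
  have := fricke h.detU h.detV
  rw [h.detK] at this
  linarith

theorem star (HL : S_LAM) : ∀ n : ℕ, ∀ U V : M2, Good U V → 3 ≤ U.trace → 3 ≤ V.trace →
    ∀ w : List Bool, w.length ≤ n →
    (ev U V w).trace ≤ 2 * Real.exp ((w.count false : ℝ) * lam U.trace +
      (w.count true : ℝ) * lam V.trace +
      (min (w.count false) (w.count true) : ℕ) * eps U.trace V.trace) := by
  intro n
  induction n with
  | zero =>
    intro U V _ _ _ w hw
    have : w = [] := List.length_eq_zero_iff.1 (Nat.le_zero.1 hw)
    subst this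
    simp [ev, Matrix.trace_one]
  | succ n ih =>
    intro U V h hU hV w hw
    have hlen := len_count w
    rcases Nat.eq_zero_or_pos (w.count true) with h1 | h1
    · have hw' := all_false w h1
      have : (ev U V w).trace = (U ^ (w.count false)).trace := by
        conv_lhs => rw [hw']
        rw [ev_replicate_false]
      rw [this, h1]
      have := tr_pow_le h.detU h.trU (w.count false)
      simpa using this
    rcases Nat.eq_zero_or_pos (w.count false) with h0 | h0
    · have hw' := all_true w h0
      have : (ev U V w).trace = (V ^ (w.count true)).trace := by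
        conv_lhs => rw [hw']
        rw [ev_replicate_true]
      rw [this, h0]
      have := tr_pow_le h.detV h.trV (w.count true)
      simpa using this
    rcases le_total (w.count true) (w.count false) with hle | hle
    · obtain ⟨w', e1, e2, e3⟩ := cone_left h (w.count false - w.count true) (w.count true) w
        (by omega) rfl
      have hlen' := len_count w'
      have h4 := ih U (U * V) h.left hU (le_trans hU h.leU) w' (by omega)
      refine le_trans e3 (le_trans h4 ?_)
      have hL := (HL U.trace V.trace (U * V).trace hU hV h.fr h.lar).2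
      have hA := lam_nonneg h.trU
      rw [e1, e2]
      refine mul_le_mul_of_nonneg_left (Real.exp_le_exp.2 ?_) (by norm_num)
      rw [min_eq_right hle, Nat.cast_sub hle]
      have hmin : ((min (w.count false - w.count true) (w.count true) : ℕ) : ℝ) ≤ (w.count true : ℝ) := by
        exact_mod_cast min_le_right _ _
      have h5 : ((min (w.count false - w.count true) (w.count true) : ℕ) : ℝ) *
          eps U.trace (U * V).trace ≤ (w.count true : ℝ) * eps U.trace (U * V).trace :=
        mul_le_mul_of_nonneg_right hmin (eps_nonneg _ _)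
      have h6 : (w.count true : ℝ) * ((lam (U * V).trace - lam U.trace - lam V.trace) +
          eps U.trace (U * V).trace) ≤ (w.count true : ℝ) * eps U.trace V.trace :=
        mul_le_mul_of_nonneg_left hL (Nat.cast_nonneg _)
      nlinarith
    · obtain ⟨w', e1, e2, e3⟩ := cone_right h (w.count false) (w.count true - w.count false) w
        rfl (by omega)
      have hlen' := len_count w'
      have h4 := ih (U * V) V h.right (le_trans hU h.leU) hV w' (by omega)
      refine le_trans e3 (le_trans h4 ?_)
      have hL := (HL V.trace U.trace (U * V).trace hV hU (by linarith [h.fr]) (by linarith [h.lar])).2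
      have hA := lam_nonneg h.trU
      rw [e1, e2]
      refine mul_le_mul_of_nonneg_left (Real.exp_le_exp.2 ?_) (by norm_num)
      rw [min_eq_left hle, Nat.cast_sub hle]
      have hmin : ((min (w.count false) (w.count true - w.count false) : ℕ) : ℝ) ≤ (w.count false : ℝ) := by
        exact_mod_cast min_le_left _ _
      have h5 : ((min (w.count false) (w.count true - w.count false) : ℕ) : ℝ) *
          eps (U * V).trace V.trace ≤ (w.count false : ℝ) * eps (U * V).trace V.trace :=
        mul_le_mul_of_nonneg_right hmin (eps_nonneg _ _)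
      have e7 : eps (U * V).trace V.trace = 2 * Real.exp (-2 * (lam V.trace + lam (U * V).trace)) := by
        unfold eps; ring_nf
      have e8 : eps U.trace V.trace = 2 * Real.exp (-2 * (lam V.trace + lam U.trace)) := by
        unfold eps; ring_nf
      rw [← e7, ← e8] at hL
      have h6 : (w.count false : ℝ) * ((lam (U * V).trace - lam V.trace - lam U.trace) +
          eps (U * V).trace V.trace) ≤ (w.count false : ℝ) * eps U.trace V.trace :=
        mul_le_mul_of_nonneg_left hL (Nat.cast_nonneg _)
      nlinarith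

end K1H25.JS
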