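import Mathlib

/-!
# MP_5175aa_an : definitions and interface statements

Letters: `false` is the letter `0` (matrix `A_0`), `true` is the letter `1` (matrix `α A_1`).
-/

namespace K1H25.JS

open Matrix Filter Topology

abbrev M2 := Matrix (Fin 2) (Fin 2) ℝ

/-- sum of the absolute values of the entries (a matrix norm) -/
noncomputable def nrm (M : M2) : ℝ := ∑ i, ∑ j, |M i j|

def A0 : M2 := !![1, 1; 0, 1]
def A1 : M2 := !![1, 0; 1, 1]

/-- the pair `𝖠_α`: `A_0` and `α A_1` -/
noncomputable def letter (α : ℝ) : Bool → M2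
  | false => A0
  | true => α • A1

/-- `𝒜(x,n) = A_{x_n} ⋯ A_{x_1}`, the letters of `x` being `x 0, x 1, …` -/
noncomputable def prodN (α : ℝ) (x : ℕ → Bool) : ℕ → M2
  | 0 => 1
  | n + 1 => letter α (x n) * prodN α x n

/-- the joint spectral radius of `𝖠_α` -/
noncomputable def jsr (α : ℝ) : ℝ :=
  limsup (fun n : ℕ => ⨆ i : Fin n → Bool,
    nrm ((List.ofFn fun j => letter α (i j)).prod) ^ (1 / (n : ℝ))) atTop

/-- `x` is weakly extremal for `𝖠_α` -/
def WeaklyExtremal (α : ℝ) (x : ℕ → Bool) : Prop :=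
  Tendsto (fun n : ℕ => nrm (prodN α x n) ^ (1 / (n : ℝ))) atTop (𝓝 (jsr α))

/-- `ς_n(x)`, the proportion of letters `1` among the first `n` letters of `x` -/
noncomputable def freq (x : ℕ → Bool) (n : ℕ) : ℝ :=
  (((Finset.range n).filter fun i => x i = true).card : ℝ) / n

/-! ## Interface -/

/-- product of the word `w` in the pair `(U, V)`: the first letter is leftmost -/
def ev (U V : M2) : List Bool → M2
  | [] => 1
  | false :: w => U * ev U V w
  | true :: w => V * ev U V w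

/-- the reversed prefix of length `n`: `[x (n-1), …, x 0]` -/
def pre (x : ℕ → Bool) : ℕ → List Bool
  | 0 => []
  | n + 1 => x n :: pre x n

/-- logarithmic weight of a word for `α = e^t` -/
noncomputable def wt (t : ℝ) (w : List Bool) : ℝ :=
  t * (w.count true : ℝ) + Real.log (nrm (ev A0 A1 w))

/-- `Λ(t) = log ϱ(e^t)` -/
noncomputable def Lam (t : ℝ) : ℝ := Real.log (jsr (Real.exp t))

/-- larger eigenvalue of a matrix in `SL₂` of trace `x ≥ 2` -/
noncomputable def E (x : ℝ) : ℝ := (x + Real.sqrt (x ^ 2 - 4)) / 2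

/-- its logarithm -/
noncomputable def lam (x : ℝ) : ℝ := Real.log (E x)

/-- orbit of the pair of words `(0,1)` under `(p,q) ↦ (p,pq)` and `(p,q) ↦ (pq,q)` -/
inductive Orb : List Bool → List Bool → Prop
  | base : Orb [false] [true]
  | left {p q : List Bool} : Orb p q → Orb p (p ++ q)
  | right {p q : List Bool} : Orb p q → Orb (p ++ q) q

/-- proportion of the letter `1` in a word -/
noncomputable def slope (w : List Bool) : ℝ := (w.count true : ℝ) / (w.length : ℝ)

/-! ### G: growth -/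

/-- every word has weight at most `Λ(t)|w| + C`, and some infinite word has all its prefixes
of weight at least `Λ(t) n - C`; moreover `ϱ(e^t) > 0` -/
def S_GROW : Prop := ∀ t : ℝ, 0 < jsr (Real.exp t) ∧
  (∃ C : ℝ, ∀ w : List Bool, wt t w ≤ Lam t * (w.length : ℝ) + C) ∧
  (∃ C : ℝ, ∃ x : ℕ → Bool, ∀ n : ℕ, Lam t * (n : ℝ) - C ≤ wt t (pre x n))

/-- weakly extremal in logarithmic form (uses `0 < jsr (exp t)`) -/
def S_WE : Prop := (∀ t : ℝ, 0 < jsr (Real.exp t)) → ∀ (t : ℝ) (x : ℕ → Bool),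
  WeaklyExtremal (Real.exp t) x ↔
    Tendsto (fun n : ℕ => wt t (pre x n) / (n : ℝ)) atTop (𝓝 (Lam t))

/-- the case `α = 0` -/
def S_ZERO : Prop := ∀ x : ℕ → Bool, WeaklyExtremal 0 x ↔ ∀ n, x n = false

/-! ### L: the function `lam` -/

def S_LAM : Prop := ∀ x y z : ℝ, 3 ≤ x → 3 ≤ y → x ^ 2 + y ^ 2 + z ^ 2 - x * y * z = 5 →
  x * y ≤ 2 * z →
  lam x + lam y < lam z ∧
  (lam z - lam x - lam y) + 2 * Real.exp (-2 * (lam x + lam z)) ≤
    2 * Real.exp (-2 * (lam x + lam y))

/-! ### F: Farey -/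

/-- Stern–Brocot path of an irrational number -/
def S_PATH : Prop := ∀ γ : ℝ, Irrational γ → 0 < γ → γ < 1 → ∀ n : ℕ, ∃ p q : List Bool,
  Orb p q ∧ n ≤ p.length ∧ n ≤ q.length ∧ slope p < γ ∧ γ < slope q

end K1H25.JS
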