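import Pool.Agent.K1H25.JS.Bounds

namespace K1H25.JS

open Matrix Filter Topology

/-! ## prefixes and frequencies -/

theorem length_pre (x : ℕ → Bool) (n : ℕ) : (pre x n).length = n := by
  induction n with
  | zero => rfl
  | succ n ih => simp [pre, ih]

theorem count_pre (x : ℕ → Bool) (n : ℕ) :
    ((Finset.range n).filter fun i => x i = true).card = (pre x n).count true := by
  induction n with
  | zero => simp [pre]
  | succ n ih =>
    rw [Finset.range_add_one, Finset.filter_insert, pre]
    cases hx : x n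
    · simp [ih]
    · simp [ih]

theorem freq_eq (x : ℕ → Bool) (n : ℕ) : freq x n = slope (pre x n) := by
  unfold freq slope
  rw [count_pre, length_pre]

theorem freq_mem (x : ℕ → Bool) (n : ℕ) : 0 ≤ freq x n ∧ freq x n ≤ 1 := by
  rw [freq_eq]
  unfold slope
  constructor
  · positivity
  · apply div_le_one_of_le₀ _ (Nat.cast_nonneg _)
    exact_mod_cast List.count_le_length

/-- logarithmic growth -/
noncomputable def gr (x : ℕ → Bool) (n : ℕ) : ℝ := Real.log (nrm (ev A0 A1 (pre x n))) / n

theorem wt_div (t : ℝ) (x : ℕ → Bool) (n : ℕ) :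
    wt t (pre x n) / (n : ℝ) = t * freq x n + gr x n := by
  unfold wt gr
  rw [freq_eq]
  unfold slope
  rw [length_pre]
  ring

/-- growth of a weakly extremal word along a sequence where its frequency converges -/
theorem gr_tendsto (HG : S_GROW) (HW : S_WE) {t : ℝ} {x : ℕ → Bool}
    (hx : WeaklyExtremal (Real.exp t) x) {φ : ℕ → ℕ} (hφ : Tendsto φ atTop atTop) {σ : ℝ}
    (hσ : Tendsto (fun k => freq x (φ k)) atTop (𝓝 σ)) :
    Tendsto (fun k => gr x (φ k)) atTop (𝓝 (Lam t - t * σ)) := by
  have h1 := ((HW (fun t => (HG t).1) t x).1 hx).comp hφ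
  have h2 : Tendsto (fun k => wt t (pre x (φ k)) / (φ k : ℝ) - t * freq x (φ k)) atTop
      (𝓝 (Lam t - t * σ)) := h1.sub (hσ.const_mul t)
  refine h2.congr (fun k => ?_)
  rw [wt_div]; ring

theorem const_div_tendsto {φ : ℕ → ℕ} (hφ : Tendsto φ atTop atTop) (C : ℝ) :
    Tendsto (fun k => C / (φ k : ℝ)) atTop (𝓝 0) :=
  (tendsto_const_div_atTop_nhds_zero_nat C).comp hφ

/-- comparison with another parameter -/
theorem gr_le_other (HG : S_GROW) {t : ℝ} {x : ℕ → Bool} {φ : ℕ → ℕ}
    (hφ : Tendsto φ atTop atTop) {σ S : ℝ}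
    (hσ : Tendsto (fun k => freq x (φ k)) atTop (𝓝 σ))
    (hS : Tendsto (fun k => gr x (φ k)) atTop (𝓝 S)) : S ≤ Lam t - t * σ := by
  obtain ⟨_, ⟨C, hC⟩, _⟩ := HG t
  have h1 : Tendsto (fun k => t * freq x (φ k) + gr x (φ k)) atTop (𝓝 (t * σ + S)) :=
    (hσ.const_mul t).add hS
  have h2 : Tendsto (fun k => Lam t + C / (φ k : ℝ)) atTop (𝓝 (Lam t + 0)) :=
    tendsto_const_nhds.add (const_div_tendsto hφ C)
  have h3 : t * σ + S ≤ Lam t + 0 := by
    refine le_of_tendsto_of_tendsto h1 h2 ?_
    filter_upwards [hφ.eventually_ge_atTop 1] with k hk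
    rw [← wt_div]
    have h4 := hC (pre x (φ k))
    rw [length_pre] at h4
    have hpos : (0 : ℝ) < (φ k : ℝ) := by exact_mod_cast hk
    rw [div_le_iff₀ hpos, add_mul, div_mul_cancel₀ _ hpos.ne']
    exact h4
  linarith

/-! ## real coordinates -/

theorem orb_det_len {p q : List Bool} (h : Orb p q) :
    (p.length : ℝ) * q.count true - (q.length : ℝ) * p.count true = 1 := by
  have hd : (p.count false : ℝ) * q.count true = p.count true * q.count false + 1 := by
    exact_mod_cast orb_det h
  have h1 : (p.length : ℝ) = p.count false + p.count true := by exact_mod_cast len_count p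
  have h2 : (q.length : ℝ) = q.count false + q.count true := by exact_mod_cast len_count q
  rw [h1, h2]
  linear_combination hd

theorem ca_real (q w : List Bool) :
    (ca q w : ℝ) = (w.length : ℝ) * q.count true - (w.count true : ℝ) * q.length := by
  have h1 : (w.length : ℝ) = w.count false + w.count true := by exact_mod_cast len_count w
  have h2 : (q.length : ℝ) = q.count false + q.count true := by exact_mod_cast len_count q
  unfold ca
  push_cast
  rw [h1, h2]
  ring

theorem cb_real (p w : List Bool) :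
    (cb p w : ℝ) = (p.length : ℝ) * w.count true - (p.count true : ℝ) * w.length := by
  have h1 : (w.length : ℝ) = w.count false + w.count true := by exact_mod_cast len_count w
  have h2 : (p.length : ℝ) = p.count false + p.count true := by exact_mod_cast len_count p
  unfold cb
  push_cast
  rw [h1, h2]
  ring

theorem ca_pre (q : List Bool) (x : ℕ → Bool) {n : ℕ} (hn : 1 ≤ n) :
    (ca q (pre x n) : ℝ) / n = q.count true - q.length * freq x n := by
  have hn' : (n : ℝ) ≠ 0 := by positivity
  rw [ca_real, freq_eq, length_pre]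
  unfold slope
  rw [length_pre]
  field_simp

theorem cb_pre (p : List Bool) (x : ℕ → Bool) {n : ℕ} (hn : 1 ≤ n) :
    (cb p (pre x n) : ℝ) / n = p.length * freq x n - p.count true := by
  have hn' : (n : ℝ) ≠ 0 := by positivity
  rw [cb_real, freq_eq, length_pre]
  unfold slope
  rw [length_pre]
  field_simp

/-! ## uniqueness -/

/-- upper bound for the growth of words of frequency `γ` in the cone `(p,q)` -/
theorem growth_in (HL : S_LAM) {p q : List Bool} (h : Orb p q) (hp : 2 ≤ p.length)
    (hq : 2 ≤ q.length) {x : ℕ → Bool} {γ S : ℝ} (hγ : Tendsto (freq x) atTop (𝓝 γ))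
    (hS : Tendsto (gr x) atTop (𝓝 S)) :
    S ≤ (q.count true - q.length * γ) * NN p + (p.length * γ - p.count true) * NN q +
      max 0 (min (q.count true - q.length * γ) (p.length * γ - p.count true)) *
        eps (ev A0 A1 p).trace (ev A0 A1 q).trace := by
  obtain ⟨C, hC⟩ := bound_all HL h hp hq
  set e := eps (ev A0 A1 p).trace (ev A0 A1 q).trace with he
  have h1 : Tendsto (fun n : ℕ => (q.count true - q.length * freq x n) * NN p +
      (p.length * freq x n - p.count true) * NN q +
      max 0 (min (q.count true - q.length * freq x n) (p.length * freq x n - p.count true)) * e +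
      C / (n : ℝ)) atTop (𝓝 ((q.count true - q.length * γ) * NN p +
      (p.length * γ - p.count true) * NN q +
      max 0 (min (q.count true - q.length * γ) (p.length * γ - p.count true)) * e + 0)) := by
    have ha : Tendsto (fun n : ℕ => (q.count true : ℝ) - q.length * freq x n) atTop
        (𝓝 (q.count true - q.length * γ)) := tendsto_const_nhds.sub (hγ.const_mul _)
    have hb : Tendsto (fun n : ℕ => (p.length : ℝ) * freq x n - p.count true) atTop
        (𝓝 (p.length * γ - p.count true)) := (hγ.const_mul _).sub tendsto_const_nhds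
    exact (((ha.mul_const _).add (hb.mul_const _)).add
      (((tendsto_const_nhds).max (ha.min hb)).mul_const _)).add
      (tendsto_const_div_atTop_nhds_zero_nat C)
  rw [add_zero] at h1
  refine le_of_tendsto_of_tendsto hS h1 ?_
  filter_upwards [eventually_ge_atTop 1] with n hn
  have hpos : (0 : ℝ) < (n : ℝ) := by exact_mod_cast hn
  have h2 := hC (pre x n)
  rw [← ca_pre q x hn, ← cb_pre p x hn]
  unfold gr
  rw [div_le_iff₀ hpos]
  have h3 : max 0 (min ((ca q (pre x n) : ℝ) / n) ((cb p (pre x n) : ℝ) / n)) * n =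
      ((max 0 (min (ca q (pre x n)) (cb p (pre x n))) : ℤ) : ℝ) := by
    rw [max_mul_of_nonneg _ _ hpos.le, min_mul_of_nonneg _ _ hpos.le,
      div_mul_cancel₀ _ hpos.ne', div_mul_cancel₀ _ hpos.ne', zero_mul]
    push_cast
    rfl
  have h4 : ((ca q (pre x n) : ℝ) / n * NN p + (cb p (pre x n) : ℝ) / n * NN q +
      max 0 (min ((ca q (pre x n) : ℝ) / n) ((cb p (pre x n) : ℝ) / n)) * e + C / n) * n =
      (ca q (pre x n) : ℝ) * NN p + (cb p (pre x n) : ℝ) * NN q +
      (max 0 (min ((ca q (pre x n) : ℝ) / n) ((cb p (pre x n) : ℝ) / n)) * n) * e + C := by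
    field_simp
  rw [h4, h3]
  exact h2

theorem eps_small {p q : List Bool} (h : Orb p q) :
    eps (ev A0 A1 p).trace (ev A0 A1 q).trace * ((p.length : ℝ) + q.length) ≤
      32 / ((p.length : ℝ) + 1) := by
  obtain ⟨t1, t2⟩ := orb_tr h
  have hg := orb_good h
  have h1 := half_le_E hg.trU
  have h2 := half_le_E hg.trV
  have e1 : eps (ev A0 A1 p).trace (ev A0 A1 q).trace =
      2 / (E (ev A0 A1 p).trace * E (ev A0 A1 q).trace) ^ 2 := by
    unfold eps
    rw [← exp_lam hg.trU, ← exp_lam hg.trV, ← Real.exp_add, ← Real.exp_nat_mul]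
    rw [div_eq_mul_inv, ← Real.exp_neg]
    congr 2
    push_cast
    ring
  rw [e1]
  set a : ℝ := (p.length : ℝ) + 1 with ha
  set b : ℝ := (q.length : ℝ) + 1 with hb
  have ha1 : 1 ≤ a := by rw [ha]; linarith [Nat.cast_nonneg (α := ℝ) p.length]
  have hb1 : 1 ≤ b := by rw [hb]; linarith [Nat.cast_nonneg (α := ℝ) q.length]
  have h3 : a * b / 4 ≤ E (ev A0 A1 p).trace * E (ev A0 A1 q).trace := by
    have : a / 2 ≤ E (ev A0 A1 p).trace := by linarith
    have : b / 2 ≤ E (ev A0 A1 q).trace := by linarith
    nlinarith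
  have h4 : (a * b / 4) ^ 2 ≤ (E (ev A0 A1 p).trace * E (ev A0 A1 q).trace) ^ 2 :=
    pow_le_pow_left₀ (by positivity) h3 2
  have h5 : 2 / (E (ev A0 A1 p).trace * E (ev A0 A1 q).trace) ^ 2 ≤ 2 / (a * b / 4) ^ 2 :=
    div_le_div_of_nonneg_left (by norm_num) (by positivity) h4
  have h6 : (p.length : ℝ) + q.length ≤ a * b := by
    rw [ha, hb]
    nlinarith [Nat.cast_nonneg (α := ℝ) p.length, Nat.cast_nonneg (α := ℝ) q.length,
      mul_nonneg (Nat.cast_nonneg (α := ℝ) p.length) (Nat.cast_nonneg (α := ℝ) q.length)]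
  calc 2 / (E (ev A0 A1 p).trace * E (ev A0 A1 q).trace) ^ 2 * ((p.length : ℝ) + q.length)
      ≤ 2 / (a * b / 4) ^ 2 * (a * b) := by
        apply mul_le_mul h5 h6 (by positivity) (by positivity)
    _ = 32 / (a * b) := by field_simp; norm_num
    _ ≤ 32 / a := by
        apply div_le_div_of_nonneg_left (by norm_num) (by positivity)
        nlinarith

/-- the growth rates determined by `t` at the two ends of the cone are pinned -/
theorem pinned (HG : S_GROW) (HW : S_WE) (HL : S_LAM) {p q : List Bool} (h : Orb p q)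
    (hp : 2 ≤ p.length) (hq : 2 ≤ q.length) {t γ : ℝ} {x : ℕ → Bool}
    (hx : WeaklyExtremal (Real.exp t) x) (hγ : Tendsto (freq x) atTop (𝓝 γ))
    (h1 : slope p < γ) (h2 : γ < slope q) :
    NN p ≤ Lam t * p.length - t * p.count true ∧
    Lam t * p.length - t * p.count true ≤ NN p + eps (ev A0 A1 p).trace (ev A0 A1 q).trace ∧
    NN q ≤ Lam t * q.length - t * q.count true ∧
    Lam t * q.length - t * q.count true ≤ NN q + eps (ev A0 A1 p).trace (ev A0 A1 q).trace := by
  have hp' : (0 : ℝ) < p.length := by exact_mod_cast (by omega : 0 < p.length)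
  have hq' : (0 : ℝ) < q.length := by exact_mod_cast (by omega : 0 < q.length)
  have hgr : Tendsto (gr x) atTop (𝓝 (Lam t - t * γ)) :=
    gr_tendsto HG HW hx tendsto_id hγ
  have hS := growth_in HL h hp hq hγ hgr
  have hd := orb_det_len h
  have lp := per_lower HG t p
  have lq := per_lower HG t q
  set e := eps (ev A0 A1 p).trace (ev A0 A1 q).trace with he
  have he0 : 0 ≤ e := eps_nonneg _ _
  have ha : 0 < (q.count true : ℝ) - q.length * γ := by
    unfold slope at h2
    rw [lt_div_iff₀ hq'] at h2
    linarith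
  have hb : 0 < (p.length : ℝ) * γ - p.count true := by
    unfold slope at h1
    rw [div_lt_iff₀ hp'] at h1
    linarith
  set a : ℝ := (q.count true : ℝ) - q.length * γ with ha'
  set b : ℝ := (p.length : ℝ) * γ - p.count true with hb'
  have e1 : a * (Lam t * p.length - t * p.count true) + b * (Lam t * q.length - t * q.count true) =
      Lam t - t * γ := by
    rw [ha', hb']
    linear_combination (Lam t - t * γ) * hd
  have hmax : max 0 (min a b) = min a b := max_eq_right (le_min ha.le hb.le)
  rw [hmax] at hS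
  have m1 : min a b * e ≤ a * e := mul_le_mul_of_nonneg_right (min_le_left _ _) he0
  have m2 : min a b * e ≤ b * e := mul_le_mul_of_nonneg_right (min_le_right _ _) he0
  have lp' : 0 ≤ Lam t * p.length - t * p.count true - NN p := by linarith
  have lq' : 0 ≤ Lam t * q.length - t * q.count true - NN q := by linarith
  have k1 : 0 ≤ a * (Lam t * p.length - t * p.count true - NN p) := mul_nonneg ha.le lp'
  have k2 : 0 ≤ b * (Lam t * q.length - t * q.count true - NN q) := mul_nonneg hb.le lq'
  refine ⟨by linarith, ?_, by linarith, ?_⟩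
  · have : a * (Lam t * p.length - t * p.count true - NN p) ≤ a * e := by linarith
    have := le_of_mul_le_mul_left this ha
    linarith
  · have : b * (Lam t * q.length - t * q.count true - NN q) ≤ b * e := by linarith
    have := le_of_mul_le_mul_left this hb
    linarith

/-- **Uniqueness.** -/
theorem uniq (HG : S_GROW) (HW : S_WE) (HL : S_LAM) (HP : S_PATH) {γ : ℝ} (hirr : Irrational γ)
    (h0 : 0 < γ) (h1 : γ < 1) {t s : ℝ} {x y : ℕ → Bool}
    (hx : WeaklyExtremal (Real.exp t) x) (hxγ : Tendsto (freq x) atTop (𝓝 γ))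
    (hy : WeaklyExtremal (Real.exp s) y) (hyγ : Tendsto (freq y) atTop (𝓝 γ)) : t = s := by
  have key : ∀ n : ℕ, |t - s| ≤ 32 / ((n : ℝ) + 1) := by
    intro n
    obtain ⟨p, q, ho, hp, hq, s1, s2⟩ := HP γ hirr h0 h1 (max n 2)
    have hp2 : 2 ≤ p.length := le_trans (le_max_right _ _) hp
    have hq2 : 2 ≤ q.length := le_trans (le_max_right _ _) hq
    obtain ⟨a1, a2, a3, a4⟩ := pinned HG HW HL ho hp2 hq2 hx hxγ s1 s2
    obtain ⟨b1, b2, b3, b4⟩ := pinned HG HW HL ho hp2 hq2 hy hyγ s1 s2
    set e := eps (ev A0 A1 p).trace (ev A0 A1 q).trace with he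
    have hd := orb_det_len ho
    have hsm := eps_small ho
    have hid : t - s = (q.length : ℝ) * ((Lam t * p.length - t * p.count true) -
        (Lam s * p.length - s * p.count true)) - (p.length : ℝ) *
        ((Lam t * q.length - t * q.count true) - (Lam s * q.length - s * q.count true)) := by
      linear_combination (-(t - s)) * hd
    have u1 : |(Lam t * p.length - t * p.count true) - (Lam s * p.length - s * p.count true)| ≤ e := by
      rw [abs_le]; constructor <;> linarith
    have u2 : |(Lam t * q.length - t * q.count true) - (Lam s * q.length - s * q.count true)| ≤ e := by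
      rw [abs_le]; constructor <;> linarith
    have hpn : (0 : ℝ) ≤ p.length := Nat.cast_nonneg _
    have hqn : (0 : ℝ) ≤ q.length := Nat.cast_nonneg _
    have u3 : |t - s| ≤ e * ((p.length : ℝ) + q.length) := by
      rw [hid]
      refine le_trans (abs_sub _ _) ?_
      rw [abs_mul, abs_mul, abs_of_nonneg hpn, abs_of_nonneg hqn]
      nlinarith
    refine le_trans u3 (le_trans hsm ?_)
    apply div_le_div_of_nonneg_left (by norm_num) (by positivity)
    have : n ≤ p.length := le_trans (le_max_left _ _) hp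
    have : (n : ℝ) ≤ p.length := by exact_mod_cast this
    linarith
  have h2 : Tendsto (fun n : ℕ => 32 / ((n : ℝ) + 1)) atTop (𝓝 0) := by
    have := (tendsto_const_div_atTop_nhds_zero_nat (32 : ℝ)).comp (tendsto_add_atTop_nat 1)
    refine this.congr (fun n => ?_)
    simp
  have h3 : |t - s| ≤ 0 := ge_of_tendsto' h2 key
  have h4 : t - s = 0 := abs_nonpos_iff.1 h3
  linarith

end K1H25.JS
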